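import Pool.Agent.H59.Zar.UT
import Pool.Agent.H59.LV.Recur

/-!
# The symplectic form and the contact form on the unit tangent bundle
-/

set_option autoImplicit false
set_option linter.unusedSectionVars false

open scoped Topology ContDiff InnerProductSpace
open Set Filter

namespace Pool.Agent.H59.Zar

open Pool.Agent.H91.GE Pool.Agent.H59.LV Pool.Agent.H59.ND

variable {E F : Type*} [NormedAddCommGroup E] [InnerProductSpace ℝ E] [FiniteDimensional ℝ E]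
  [NormedAddCommGroup F] [InnerProductSpace ℝ F] [FiniteDimensional ℝ F]
  {S : Set E} {A : E × E → E} {K K₂ : NNReal} {Φ : ℝ → E × E → E × E} {n : ℕ}

theorem flow_mem_UT (h : GFlow F S A K K₂ Φ) {w : E × E} (hw : w ∈ UT S) (t : ℝ) :
    Φ t w ∈ UT S := by
  have h2 : ‖w.2‖ = 1 := hw.2
  obtain ⟨h3, h4⟩ := h.mem hw.1 (by rw [h2]; norm_num) t
  exact ⟨h3, h4.trans h2⟩

theorem hasDerivAt_flow (h : GFlow F S A K K₂ Φ) (w : E × E) (t : ℝ) :
    HasDerivAt (fun t => Φ t w) ((Φ t w).2, A (Φ t w)) t := h.flow.deriv t w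

/-- Jacobi fields: the derivative of the first component is the second component. -/
theorem hasDerivAt_jac (h : GFlow F S A K K₂ Φ) (w a : E × E) (t : ℝ) :
    HasDerivAt (fun t => fderiv ℝ (Φ t) w a)
      ((fderiv ℝ (Φ t) w a).2, fderiv ℝ A (Φ t w) (fderiv ℝ (Φ t) w a)) t := by
  have h1 := h.flow.deriv_fderiv h.vf w a t
  rw [fderiv_XF h] at h1
  exact h1

theorem flow_X (h : GFlow F S A K K₂ Φ) (w : E × E) (t : ℝ) :
    fderiv ℝ (Φ t) w (w.2, A w) = ((Φ t w).2, A (Φ t w)) := by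
  have h1 : HasDerivAt (fun s => Φ (t + s) w) ((Φ t w).2, A (Φ t w)) 0 := by
    have h2 := hasDerivAt_flow h w (t + 0)
    have h3 := h2.comp_const_add t 0
    rw [add_zero] at h3
    exact h3
  have h4 : HasDerivAt (fun s => Φ t (Φ s w)) (fderiv ℝ (Φ t) w (w.2, A w)) 0 := by
    have h5 : HasFDerivAt (Φ t) (fderiv ℝ (Φ t) w) (Φ 0 w) := by
      rw [h.flow.zero]
      exact (h.flow.differentiable h.vf t w).hasFDerivAt
    have h6 := hasDerivAt_flow h w 0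
    rw [h.flow.zero] at h6
    exact h5.comp_hasDerivAt (0 : ℝ) h6
  have h7 : (fun s => Φ (t + s) w) = fun s => Φ t (Φ s w) :=
    funext fun s => h.flow.add h.vf t s w
  rw [h7] at h1
  exact h4.unique h1

theorem contDiff_flow (h : GFlow F S A K K₂ Φ) (t : ℝ) : ContDiff ℝ ∞ (Φ t) :=
  h.contDiff.comp (contDiff_const.prodMk contDiff_id)

theorem flow_inv (h : GFlow F S A K K₂ Φ) (t : ℝ) (w : E × E) : Φ (-t) (Φ t w) = w := by
  rw [← h.flow.add h.vf, neg_add_cancel, h.flow.zero]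

theorem fderiv_flow_inv (h : GFlow F S A K K₂ Φ) (t : ℝ) (w a : E × E) :
    fderiv ℝ (Φ (-t)) (Φ t w) (fderiv ℝ (Φ t) w a) = a := by
  have h1 : HasFDerivAt (fun w => Φ (-t) (Φ t w))
      ((fderiv ℝ (Φ (-t)) (Φ t w)).comp (fderiv ℝ (Φ t) w)) w :=
    (h.flow.differentiable h.vf (-t) (Φ t w)).hasFDerivAt.comp w
      (h.flow.differentiable h.vf t w).hasFDerivAt
  have h2 : (fun w => Φ (-t) (Φ t w)) = fun w => w := funext fun w => flow_inv h t w
  rw [h2] at h1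
  have h3 := h1.unique (hasFDerivAt_id w)
  exact congrArg (fun L : (E × E) →L[ℝ] (E × E) => L a) h3

theorem flow_ZTU_mem (h : GFlow F S A K K₂ Φ) {w a : E × E}
    (ha : a ∈ ZT (UT S) w) (t : ℝ) : fderiv ℝ (Φ t) w a ∈ ZT (UT S) (Φ t w) :=
  map_mem_ZT (U := univ) univ_mem (contDiff_flow h t).contDiffOn
    (fun _ hq _ => flow_mem_UT h hq t) ha

theorem flow_ZTU (h : GFlow F S A K K₂ Φ) {w a : E × E} (hw : w ∈ UT S) (t : ℝ) :
    fderiv ℝ (Φ t) w a ∈ ZT (UT S) (Φ t w) ↔ a ∈ ZT (UT S) w := by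
  refine ⟨fun ha => ?_, fun ha => flow_ZTU_mem h ha t⟩
  have h1 := flow_ZTU_mem h ha (-t)
  rw [flow_inv h, fderiv_flow_inv h] at h1
  exact h1

theorem fderiv_flow_zero (h : GFlow F S A K K₂ Φ) (w a : E × E) : fderiv ℝ (Φ 0) w a = a := by
  have : Φ 0 = fun w => w := funext fun w => h.flow.zero w
  rw [this, fderiv_id']; rfl

/-- The contact form `⟪w.2, a.1⟫` is invariant. -/
theorem theta_flow (h : GFlow F S A K K₂ Φ) {w a : E × E} (hw : w ∈ UT S)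
    (ha : a ∈ ZT (UT S) w) (t : ℝ) :
    ⟪(Φ t w).2, (fderiv ℝ (Φ t) w a).1⟫_ℝ = ⟪w.2, a.1⟫_ℝ := by
  have hd : ∀ s, HasDerivAt (fun s => ⟪(Φ s w).2, (fderiv ℝ (Φ s) w a).1⟫_ℝ) 0 s := by
    intro s
    have hws := flow_mem_UT h hw s
    have has := flow_ZTU_mem h ha s
    have d1 := (ContinuousLinearMap.snd ℝ E E).hasFDerivAt.comp_hasDerivAt s (hasDerivAt_flow h w s)
    have d2 := (ContinuousLinearMap.fst ℝ E E).hasFDerivAt.comp_hasDerivAt s (hasDerivAt_jac h w a s)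
    have d3 := d1.inner ℝ d2
    have h0 : ⟪(Φ s w).2, (fderiv ℝ (Φ s) w a).2⟫_ℝ
        + ⟪A (Φ s w), (fderiv ℝ (Φ s) w a).1⟫_ℝ = 0 := by
      rw [inner_snd has, inner_A h hws (fst_mem_TS hws has), add_zero]
    rw [← h0]
    exact d3
  have hc := is_const_of_deriv_eq_zero (fun s => (hd s).differentiableAt) (fun s => (hd s).deriv) t 0
  rw [h.flow.zero, fderiv_flow_zero h] at hc
  exact hc

/-- In a patch of the tangent bundle the vectors of `ZT (UT S) w` are tangent. -/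
theorem patch_tangent {M : Type*} [NormedAddCommGroup M] [NormedSpace ℝ M]
    {O : Set M} {Ψ : M → E × E} {κ : E × E →L[ℝ] M} {V : Set (E × E)}
    (hp : Patch (T2 S) O Ψ κ V) {w a : E × E} (hw : w ∈ UT S) (hV : w ∈ V)
    (ha : a ∈ ZT (UT S) w) : κ w ∈ O ∧ Ψ (κ w) = w ∧ fderiv ℝ Ψ (κ w) (κ a) = a := by
  have hT : ∀ q ∈ UT S, q ∈ T2 S := fun q hq => ⟨hq.1, by
    show ‖q.2‖ < 2
    rw [show ‖q.2‖ = 1 from hq.2]; norm_num⟩
  obtain ⟨h1, h2⟩ := hp.right w (hT w hw) hV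
  refine ⟨h1, h2, ?_⟩
  have hU : V ∩ κ ⁻¹' O ∈ 𝓝 w :=
    inter_mem (hp.V_open.mem_nhds hV) (κ.continuous.continuousAt.preimage_mem_nhds
      (hp.isOpen.mem_nhds h1))
  have hs : ContDiffOn ℝ ∞ (fun q : E × E => Ψ (κ q) - q) (V ∩ κ ⁻¹' O) :=
    (hp.smooth.comp κ.contDiff.contDiffOn fun q hq => hq.2).sub contDiffOn_id
  have h3 := fderiv_eq_zero' (R := UT S) hU hs (fun q hq hqU => by
    rw [(hp.right q (hT q hq) hqU.1).2, sub_self]) ha
  have h4 : HasFDerivAt (fun q : E × E => Ψ (κ q) - q)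
      ((fderiv ℝ Ψ (κ w)).comp κ - ContinuousLinearMap.id ℝ (E × E)) w :=
    ((hp.hasFDerivAt h1).comp w κ.hasFDerivAt).sub (hasFDerivAt_id w)
  rw [h4.fderiv] at h3
  exact sub_eq_zero.1 h3

/-- The symplectic form is invariant. -/
theorem om_flowU (h : GFlow F S A K K₂ Φ) (hdim : Module.finrank ℝ F ≤ Module.finrank ℝ E)
    {w a b : E × E} (hw : w ∈ UT S) (ha : a ∈ ZT (UT S) w) (hb : b ∈ ZT (UT S) w) (t : ℝ) :
    om (fderiv ℝ (Φ t) w a) (fderiv ℝ (Φ t) w b) = om a b := by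
  let N' := EuclideanSpace ℝ (Fin (Module.finrank ℝ E - Module.finrank ℝ F))
  have hdN : Module.finrank ℝ E = Module.finrank ℝ F + Module.finrank ℝ N' := by
    rw [finrank_euclideanSpace_fin]; omega
  obtain ⟨Ω, ψ, P, W, -, hW, hp⟩ := exists_tangent_patch h hdN hw.1
  have hV : w ∈ {w : E × E | w.1 ∈ W} := hW
  obtain ⟨h1, h2, h3⟩ := patch_tangent hp hw hV ha
  obtain ⟨-, -, h4⟩ := patch_tangent hp hw hV hb
  have h5 := om_flow h hdim hp h1 ((P.prodMap P) a) ((P.prodMap P) b) t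
  rw [h3, h4, h2] at h5
  exact h5

/-- The geodesic field is in the kernel of the symplectic form. -/
theorem om_X (h : GFlow F S A K K₂ Φ) {w a : E × E} (hw : w ∈ UT S) (ha : a ∈ ZT (UT S) w) :
    om a (w.2, A w) = 0 := by
  rw [om_apply]
  show ⟪a.1, A w⟫_ℝ - ⟪w.2, a.2⟫_ℝ = 0
  rw [inner_snd ha, real_inner_comm, inner_A h hw (fst_mem_TS hw ha), sub_zero]

/-- The kernel of the symplectic form is spanned by the geodesic field. -/
theorem om_nondegU (h : GFlow F S A K K₂ Φ) {w a : E × E} (hw : w ∈ UT S)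
    (ha : a ∈ ZT (UT S) w) (h0 : ∀ b ∈ ZT (UT S) w, ⟪w.2, b.1⟫_ℝ = 0 → om a b = 0) :
    ∃ c : ℝ, a = c • (w.2, A w) := by
  set c : ℝ := ⟪w.2, a.1⟫_ℝ with hc
  refine ⟨c, ?_⟩
  have hX := X_mem_ZTU h hw
  have hw2 : ⟪w.2, w.2⟫_ℝ = 1 := by
    rw [real_inner_self_eq_norm_sq, show ‖w.2‖ = 1 from hw.2, one_pow]
  -- the horizontal part
  set ξ : E := a.1 - c • w.2 with hξ
  have hξT : ξ ∈ ZT S w.1 :=
    Submodule.sub_mem _ (fst_mem_TS hw ha) (Submodule.smul_mem _ _ (snd_mem_TS h.sub hw))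
  have hξ0 : ⟪w.2, ξ⟫_ℝ = 0 := by
    rw [hξ, inner_sub_right, inner_smul_right, hw2, mul_one, ← hc, sub_self]
  have h1 : ⟪a.1, ξ⟫_ℝ = 0 := by
    have h2 := h0 ((0 : E), ξ) ((ver_mem_iff h.sub hw).2 ⟨hξT, hξ0⟩) (inner_zero_right _)
    rw [om_apply] at h2
    have h3 : ⟪a.1, ξ⟫_ℝ - ⟪(0 : E), a.2⟫_ℝ = 0 := h2
    rwa [inner_zero_left, sub_zero] at h3
  have h2 : ξ = 0 := by
    have h3 : ⟪ξ, ξ⟫_ℝ = 0 := by
      calc ⟪ξ, ξ⟫_ℝ = ⟪a.1, ξ⟫_ℝ - c * ⟪w.2, ξ⟫_ℝ := by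
            rw [← real_inner_smul_left, ← inner_sub_left]
        _ = 0 := by rw [h1, hξ0, mul_zero, sub_zero]
    exact inner_self_eq_zero.1 h3
  -- the vertical part
  set b : E × E := a - c • (w.2, A w) with hb
  have hbT : b ∈ ZT (UT S) w := Submodule.sub_mem _ ha (Submodule.smul_mem _ _ hX)
  have hb1 : b.1 = 0 := h2
  have hb0 : b = ((0 : E), b.2) := Prod.ext hb1 rfl
  have h3 := (ver_mem_iff h.sub hw).1 (hb0 ▸ hbT)
  obtain ⟨d, hd⟩ := exists_lift h.sub hw h3.1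
  have h4 : om a (b.2, d) = 0 := h0 _ hd h3.2
  have h5 : om (w.2, A w) (b.2, d) = 0 := by
    have h6 := om_X h hw hd
    rw [om_apply] at h6 ⊢
    linarith
  have h6 : om b (b.2, d) = 0 := by
    rw [hb, map_sub, map_smul, LinearMap.sub_apply, LinearMap.smul_apply, h4, h5, smul_zero,
      sub_zero]
  have h7 : b.2 = 0 := by
    rw [om_apply] at h6
    have h8 : ⟪b.1, d⟫_ℝ - ⟪b.2, b.2⟫_ℝ = 0 := h6
    rw [hb1, inner_zero_left, zero_sub, neg_eq_zero] at h8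
    exact inner_self_eq_zero.1 h8
  have h8 : b = 0 := Prod.ext hb1 h7
  exact sub_eq_zero.1 h8

end Pool.Agent.H59.Zar
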