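import Pool.Agent.H59.Zar.Ker

/-!
# Closed relations which contain the graphs of a flow: section 1 of `db5e86_proof`

`Φ` is a smooth flow on a finite-dimensional space `G`, `U` a closed set (the unit tangent bundle),
`R ⊆ U × U` a closed relation, invariant under the flow in each variable, containing the diagonal,
in which the points `(w, Φ t w)` with `t > T` are dense.
-/

set_option autoImplicit false
set_option linter.unusedSectionVars false

open scoped Topology ContDiff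
open Set Filter

namespace Pool.Agent.H59.Zar

variable {G : Type*} [NormedAddCommGroup G] [NormedSpace ℝ G] [FiniteDimensional ℝ G]

structure RetRel (Φ : ℝ → G → G) (U : Set G) (c : ℕ) (R : Set (G × G)) : Prop where
  smooth : ContDiff ℝ ∞ (fun x : ℝ × G => Φ x.1 x.2)
  zero : ∀ w, Φ 0 w = w
  add : ∀ s t w, Φ (s + t) w = Φ s (Φ t w)
  closed : IsClosed R
  sub : ∀ p ∈ R, p.1 ∈ U ∧ p.2 ∈ U
  inv : ∀ p ∈ R, ∀ s t, (Φ s p.1, Φ t p.2) ∈ R
  diag : ∀ w ∈ U, (w, w) ∈ R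
  dense : ∀ p ∈ R, ∀ T : ℝ, ∀ O ∈ 𝓝 p, ∃ w ∈ U, ∃ t > T, (w, Φ t w) ∈ O
  rank : ∀ w ∈ U, Module.finrank ℝ (ZT U w) = c

/-- The distribution `Y`. -/
noncomputable def Y (R : Set (G × G)) (w : G) : Submodule ℝ G :=
  (ZT R (w, w)).comap (LinearMap.inr ℝ G G)

omit [FiniteDimensional ℝ G] in
theorem mem_Y {R : Set (G × G)} {w b : G} : b ∈ Y R w ↔ ((0 : G), b) ∈ ZT R (w, w) := Iff.rfl

/-- The good points: the dimension of `Y` is locally constant on `U`. -/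
def GoodPt (U : Set G) (R : Set (G × G)) : Set G :=
  {w | w ∈ U ∧ ∀ᶠ w' in 𝓝[U] w, Module.finrank ℝ (Y R w') = Module.finrank ℝ (Y R w)}

variable {Φ : ℝ → G → G} {U : Set G} {c : ℕ} {R : Set (G × G)}

theorem RetRel.flow_mem (h : RetRel Φ U c R) {w : G} (hw : w ∈ U) (t : ℝ) : Φ t w ∈ U := by
  have h1 := h.inv _ (h.diag w hw) t t
  exact (h.sub _ h1).1

theorem RetRel.mem_flow (h : RetRel Φ U c R) {w : G} (hw : w ∈ U) (t : ℝ) : (w, Φ t w) ∈ R := by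
  have h1 := h.inv _ (h.diag w hw) 0 t
  rwa [h.zero] at h1

theorem RetRel.contDiff_flow (h : RetRel Φ U c R) (t : ℝ) : ContDiff ℝ ∞ (Φ t) :=
  h.smooth.comp (contDiff_const.prodMk contDiff_id)

theorem RetRel.hasFDerivAt_flow (h : RetRel Φ U c R) (t : ℝ) (w : G) :
    HasFDerivAt (Φ t) (fderiv ℝ (Φ t) w) w :=
  ((h.contDiff_flow t).differentiable (by simp) w).hasFDerivAt

theorem RetRel.flow_zero (h : RetRel Φ U c R) : Φ 0 = id := by
  funext w
  exact h.zero w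

theorem RetRel.flow_neg (h : RetRel Φ U c R) (t : ℝ) (w : G) : Φ (-t) (Φ t w) = w := by
  rw [← h.add, neg_add_cancel, h.zero]

/-- The derivatives of the flow. -/
theorem RetRel.fderiv_add (h : RetRel Φ U c R) (s t : ℝ) (w a : G) :
    fderiv ℝ (Φ (s + t)) w a = fderiv ℝ (Φ s) (Φ t w) (fderiv ℝ (Φ t) w a) := by
  have e : Φ (s + t) = fun x => Φ s (Φ t x) := by
    funext x
    exact h.add s t x
  have h1 : HasFDerivAt (fun x => Φ s (Φ t x))
      ((fderiv ℝ (Φ s) (Φ t w)).comp (fderiv ℝ (Φ t) w)) w :=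
    (h.hasFDerivAt_flow s (Φ t w)).comp w (h.hasFDerivAt_flow t w)
  rw [e, h1.fderiv]
  rfl

theorem RetRel.fderiv_zero (h : RetRel Φ U c R) (w a : G) : fderiv ℝ (Φ 0) w a = a := by
  rw [h.flow_zero, fderiv_id]
  rfl

theorem RetRel.fderiv_inv (h : RetRel Φ U c R) (t : ℝ) (w a : G) :
    fderiv ℝ (Φ (-t)) (Φ t w) (fderiv ℝ (Φ t) w a) = a := by
  rw [← h.fderiv_add, neg_add_cancel, h.fderiv_zero]

theorem RetRel.fderiv_inv' (h : RetRel Φ U c R) (t : ℝ) (w a : G) :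
    fderiv ℝ (Φ t) w (fderiv ℝ (Φ (-t)) (Φ t w) a) = a := by
  have h1 := h.fderiv_inv (-t) (Φ t w) a
  rwa [neg_neg, h.flow_neg] at h1

/-- `map_mem_ZT` for a globally smooth map. -/
theorem map_mem_ZT_univ {V W : Type*} [NormedAddCommGroup V] [NormedSpace ℝ V]
    [NormedAddCommGroup W] [NormedSpace ℝ W] [FiniteDimensional ℝ V] [FiniteDimensional ℝ W]
    {R : Set V} {R' : Set W} {Θ : V → W} {p a : V} (hΘ : ContDiff ℝ ∞ Θ)
    (h0 : ∀ q ∈ R, Θ q ∈ R') (ha : a ∈ ZT R p) : fderiv ℝ Θ p a ∈ ZT R' (Θ p) :=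
  map_mem_ZT (U := univ) Filter.univ_mem hΘ.contDiffOn (fun q hq _ => h0 q hq) ha

theorem RetRel.flow_ZTU (h : RetRel Φ U c R) {w a : G} (hw : w ∈ U) (t : ℝ) :
    fderiv ℝ (Φ t) w a ∈ ZT U (Φ t w) ↔ a ∈ ZT U w := by
  constructor
  · intro ha
    have h1 := map_mem_ZT_univ (R' := U) (h.contDiff_flow (-t)) (fun q hq => h.flow_mem hq _) ha
    rwa [h.fderiv_inv, h.flow_neg] at h1
  · intro ha
    exact map_mem_ZT_univ (R' := U) (h.contDiff_flow t) (fun q hq => h.flow_mem hq _) ha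

/-- The diffeomorphisms `Φ s × Φ t`. -/
theorem RetRel.flow_ZTR_mp (h : RetRel Φ U c R) {p : G × G} {a b : G} (s t : ℝ)
    (hab : (a, b) ∈ ZT R p) :
    (fderiv ℝ (Φ s) p.1 a, fderiv ℝ (Φ t) p.2 b) ∈ ZT R (Φ s p.1, Φ t p.2) := by
  have hs : ContDiff ℝ ∞ (fun q : G × G => (Φ s q.1, Φ t q.2)) :=
    ((h.contDiff_flow s).comp contDiff_fst).prodMk ((h.contDiff_flow t).comp contDiff_snd)
  have h1 : HasFDerivAt (fun q : G × G => Φ s q.1)
      ((fderiv ℝ (Φ s) p.1).comp (ContinuousLinearMap.fst ℝ G G)) p :=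
    (h.hasFDerivAt_flow s p.1).comp p hasFDerivAt_fst
  have h2 : HasFDerivAt (fun q : G × G => Φ t q.2)
      ((fderiv ℝ (Φ t) p.2).comp (ContinuousLinearMap.snd ℝ G G)) p :=
    (h.hasFDerivAt_flow t p.2).comp p hasFDerivAt_snd
  have h3 := map_mem_ZT_univ (R' := R) hs (fun q hq => h.inv q hq s t) hab
  rw [(h1.prodMk h2).fderiv] at h3
  exact h3

theorem RetRel.flow_ZTR (h : RetRel Φ U c R) {p : G × G} {a b : G} (s t : ℝ) :
    (fderiv ℝ (Φ s) p.1 a, fderiv ℝ (Φ t) p.2 b) ∈ ZT R (Φ s p.1, Φ t p.2) ↔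
      (a, b) ∈ ZT R p := by
  refine ⟨fun hab => ?_, h.flow_ZTR_mp s t⟩
  have h1 := h.flow_ZTR_mp (-s) (-t) hab
  simp only [h.fderiv_inv, h.flow_neg] at h1
  exact h1

/-- (1.1). -/
theorem RetRel.mem_diag (h : RetRel Φ U c R) {w a b : G} (hw : w ∈ U) :
    (a, b) ∈ ZT R (w, w) ↔ a ∈ ZT U w ∧ a - b ∈ Y R w := by
  have hd : ∀ a ∈ ZT U w, (a, a) ∈ ZT R (w, w) := by
    intro a ha
    have hs : ContDiff ℝ ∞ (fun q : G => (q, q)) := contDiff_id.prodMk contDiff_id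
    have h1 : HasFDerivAt (fun q : G => (q, q))
        ((ContinuousLinearMap.id ℝ G).prod (ContinuousLinearMap.id ℝ G)) w :=
      (hasFDerivAt_id w).prodMk (hasFDerivAt_id w)
    have h3 := map_mem_ZT_univ (R' := R) hs (fun q hq => h.diag q hq) ha
    rw [h1.fderiv] at h3
    exact h3
  constructor
  · intro hab
    have h1 := map_mem_ZT_univ (R' := U) (Θ := (Prod.fst : G × G → G)) contDiff_fst
      (fun q hq => (h.sub q hq).1) hab
    rw [fderiv_fst] at h1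
    have h2 : a ∈ ZT U w := h1
    refine ⟨h2, ?_⟩
    have h3 := (ZT R (w, w)).sub_mem (hd a h2) hab
    rw [mem_Y]
    have e : ((0 : G), a - b) = (a, a) - (a, b) := by simp
    rw [e]
    exact h3
  · rintro ⟨ha, hab⟩
    have h3 := (ZT R (w, w)).sub_mem (hd a ha) (mem_Y.1 hab)
    have e : (a, b) = (a, a) - ((0 : G), a - b) := by simp
    rw [e]
    exact h3

/-- (1.2). -/
theorem RetRel.mem_graph (h : RetRel Φ U c R) {w a b : G} (hw : w ∈ U) (t : ℝ) :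
    (a, fderiv ℝ (Φ t) w b) ∈ ZT R (w, Φ t w) ↔ a ∈ ZT U w ∧ a - b ∈ Y R w := by
  have h1 := h.flow_ZTR (p := (w, w)) (a := a) (b := b) 0 t
  simp only [h.fderiv_zero, h.zero] at h1
  rw [h1, h.mem_diag hw]

theorem RetRel.flow_Y (h : RetRel Φ U c R) {w a : G} (hw : w ∈ U) (t : ℝ) :
    fderiv ℝ (Φ t) w a ∈ Y R (Φ t w) ↔ a ∈ Y R w := by
  have h1 := h.flow_ZTR (p := (w, w)) (a := 0) (b := a) t t
  simp only [map_zero] at h1
  rw [mem_Y, mem_Y, h1]

theorem RetRel.Y_le (h : RetRel Φ U c R) {w : G} (hw : w ∈ U) : Y R w ≤ ZT U w := by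
  intro b hb
  have h1 := map_mem_ZT_univ (R' := U) (Θ := (Prod.snd : G × G → G)) contDiff_snd
    (fun q hq => (h.sub q hq).2) (mem_Y.1 hb)
  rw [fderiv_snd] at h1
  exact h1

/-- The flow direction is in `Y`. -/
theorem RetRel.X_mem (h : RetRel Φ U c R) {w x : G} (hw : w ∈ U)
    (hx : HasDerivAt (fun t => Φ t w) x 0) : x ∈ Y R w := by
  rw [mem_Y]
  intro f hf
  have h1 : HasDerivAt (fun t : ℝ => (w, Φ t w)) ((0 : G), x) 0 :=
    (hasDerivAt_const (0 : ℝ) w).prodMk hx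
  have h2 : HasFDerivAt f (fderiv ℝ f (w, w)) (w, Φ 0 w) := by
    rw [h.zero]
    exact (hf.1.differentiable (by simp) (w, w)).hasFDerivAt
  have h3 : HasDerivAt (f ∘ fun t : ℝ => (w, Φ t w)) (fderiv ℝ f (w, w) ((0 : G), x)) 0 :=
    h2.comp_hasDerivAt 0 h1
  have e : (f ∘ fun t : ℝ => (w, Φ t w)) = fun _ => (0 : ℝ) := by
    funext t
    exact hf.2 _ (h.mem_flow hw t)
  rw [e] at h3
  exact h3.unique (hasDerivAt_const (0 : ℝ) (0 : ℝ))

theorem RetRel.finrank_Y_le_flow (h : RetRel Φ U c R) {w : G} (hw : w ∈ U) (t : ℝ) :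
    Module.finrank ℝ (Y R w) ≤ Module.finrank ℝ (Y R (Φ t w)) := by
  have hmem : ∀ a ∈ Y R w, (fderiv ℝ (Φ t) w : G →ₗ[ℝ] G) a ∈ Y R (Φ t w) :=
    fun a ha => (h.flow_Y hw t).2 ha
  refine LinearMap.finrank_le_finrank_of_injective
    (f := (fderiv ℝ (Φ t) w : G →ₗ[ℝ] G).restrict hmem) ?_
  intro a b hab
  have h1 : fderiv ℝ (Φ t) w a = fderiv ℝ (Φ t) w b := congrArg Subtype.val hab
  apply Subtype.ext
  rw [← h.fderiv_inv t w a, ← h.fderiv_inv t w b, h1]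

theorem RetRel.finrank_flow_Y (h : RetRel Φ U c R) {w : G} (hw : w ∈ U) (t : ℝ) :
    Module.finrank ℝ (Y R (Φ t w)) = Module.finrank ℝ (Y R w) := by
  refine le_antisymm ?_ (h.finrank_Y_le_flow hw t)
  have h1 := h.finrank_Y_le_flow (h.flow_mem hw t) (-t)
  rwa [h.flow_neg] at h1

theorem RetRel.finrank_graph (h : RetRel Φ U c R) {w : G} (hw : w ∈ U) (t : ℝ) :
    Module.finrank ℝ (ZT R (w, Φ t w)) = c + Module.finrank ℝ (Y R w) := by
  set D : G →ₗ[ℝ] G := (fderiv ℝ (Φ t) w : G →ₗ[ℝ] G) with hD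
  set A : (ZT U w × Y R w) →ₗ[ℝ] G := (ZT U w).subtype.comp (LinearMap.fst ℝ (ZT U w) (Y R w))
    with hA
  set B : (ZT U w × Y R w) →ₗ[ℝ] G := (Y R w).subtype.comp (LinearMap.snd ℝ (ZT U w) (Y R w))
    with hB
  set L : (ZT U w × Y R w) →ₗ[ℝ] G × G := A.prod (D.comp (A - B)) with hL
  have hLa : ∀ x : ZT U w × Y R w,
      L x = ((x.1 : G), fderiv ℝ (Φ t) w ((x.1 : G) - (x.2 : G))) := fun x => rfl
  have hinj : Function.Injective L := by
    intro x y hxy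
    rw [hLa, hLa, Prod.mk.injEq] at hxy
    obtain ⟨h1, h2⟩ := hxy
    have h3 : (x.1 : G) - (x.2 : G) = (y.1 : G) - (y.2 : G) := by
      rw [← h.fderiv_inv t w ((x.1 : G) - (x.2 : G)), h2, h.fderiv_inv]
    have h4 : (x.2 : G) = (y.2 : G) := by
      rw [h1] at h3
      exact sub_right_injective h3
    exact Prod.ext (Subtype.ext h1) (Subtype.ext h4)
  have hrange : LinearMap.range L = ZT R (w, Φ t w) := by
    ext ⟨a, b⟩
    constructor
    · rintro ⟨x, hx⟩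
      rw [← hx, hLa, h.mem_graph hw]
      refine ⟨x.1.2, ?_⟩
      rw [sub_sub_cancel]
      exact x.2.2
    · intro hab
      have h1 : b = fderiv ℝ (Φ t) w (fderiv ℝ (Φ (-t)) (Φ t w) b) := (h.fderiv_inv' t w b).symm
      rw [h1, h.mem_graph hw] at hab
      refine ⟨(⟨a, hab.1⟩, ⟨_, hab.2⟩), ?_⟩
      rw [hLa]
      simp only [sub_sub_cancel]
      rw [← h1]
  rw [← hrange, LinearMap.finrank_range_of_inj hinj, Module.finrank_prod, h.rank w hw]

end Pool.Agent.H59.Zar
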