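import Pool.Agent.H59.Zar.Om
import Pool.Agent.H59.Zar.Rel

/-!
# The relation `R` of a closed manifold
-/

set_option autoImplicit false
set_option linter.unusedSectionVars false

open scoped Topology ContDiff InnerProductSpace
open Set Filter

namespace Pool.Agent.H59.Zar

open Pool.Agent.H91.GE Pool.Agent.H59.LV Pool.Agent.H59.ND

variable {E F : Type*} [NormedAddCommGroup E] [InnerProductSpace ℝ E] [FiniteDimensional ℝ E]
  [NormedAddCommGroup F] [InnerProductSpace ℝ F] [FiniteDimensional ℝ F]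
  {S : Set E} {A : E × E → E} {K K₂ : NNReal} {Φ : ℝ → E × E → E × E} {n : ℕ}

/-- The relation `R`: pairs of unit vectors joined by arbitrarily long orbit segments up to small
errors. -/
def RS (Φ : ℝ → E × E → E × E) (S : Set E) : Set ((E × E) × (E × E)) :=
  {p | p.1 ∈ UT S ∧ p.2 ∈ UT S ∧ Leads Φ S p.1 p.2}

theorem isClosed_UT (hS : IsCompact S) (hsub : IsSub F S) : IsClosed (UT S) := by
  have h1 : IsClosed {w : E × E | ‖w.2‖ = 1} :=
    isClosed_eq continuous_snd.norm continuous_const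
  exact (isClosed_TSet hS hsub).inter h1

theorem isClosed_RS (h : GFlow F S A K K₂ Φ) : IsClosed (RS Φ S) := by
  have hU := isClosed_UT h.compact h.sub
  refine isClosed_of_closure_subset fun p hp => ⟨?_, ?_, ?_⟩
  · have h1 : RS Φ S ⊆ Prod.fst ⁻¹' UT S := fun q hq => hq.1
    exact closure_minimal h1 (hU.preimage continuous_fst) hp
  · have h1 : RS Φ S ⊆ Prod.snd ⁻¹' UT S := fun q hq => hq.2.1
    exact closure_minimal h1 (hU.preimage continuous_snd) hp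
  · intro O O' hO hO' hw hw' T
    rw [mem_closure_iff] at hp
    obtain ⟨q, hq, hqR⟩ := hp (O ×ˢ O') (hO.prod hO') ⟨hw, hw'⟩
    exact hqR.2.2 O O' hO hO' hq.1 hq.2 T

theorem continuous_flow (h : GFlow F S A K K₂ Φ) (t : ℝ) : Continuous (Φ t) :=
  (h.flow.continuous h.vf).comp (continuous_const.prodMk continuous_id)

/-- `RS` is a closed relation with all the properties used in section 1. -/
theorem retRel (h : GFlow F S A K K₂ Φ) (hdim : Module.finrank ℝ E = Module.finrank ℝ F + n) :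
    RetRel Φ (UT S) (2 * n - 1) (RS Φ S) where
  smooth := h.contDiff
  zero := h.flow.zero
  add := h.flow.add h.vf
  closed := isClosed_RS h
  sub := fun p hp => ⟨hp.1, hp.2.1⟩
  inv := by
    rintro ⟨w, w'⟩ ⟨hw, hw', hl⟩ s t
    refine ⟨flow_mem_UT h hw s, flow_mem_UT h hw' t, ?_⟩
    intro O O' hO hO' hO1 hO2 T
    obtain ⟨r, hr, ξ, hξ, hξ1, hξO, hξO'⟩ := hl (Φ s ⁻¹' O) (Φ t ⁻¹' O')
      (hO.preimage (continuous_flow h s)) (hO'.preimage (continuous_flow h t)) hO1 hO2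
      (T + |s| + |t|)
    have hξU : ξ ∈ UT S := ⟨hξ, hξ1⟩
    have h1 := flow_mem_UT h hξU s
    refine ⟨t + r - s, ?_, Φ s ξ, h1.1, h1.2, hξO, ?_⟩
    · have h2 := neg_abs_le t
      have h3 := le_abs_self s
      linarith
    · rw [← h.flow.add h.vf, sub_add_cancel, h.flow.add h.vf]
      exact hξO'
  diag := by
    intro w hw
    refine ⟨hw, hw, ?_⟩
    intro O O' hO hO' hO1 hO2 T
    have h1 : ‖w.2‖ = 1 := hw.2
    have h0 : w.2 ≠ 0 := by
      intro h0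
      rw [h0, norm_zero] at h1
      exact zero_ne_one h1
    obtain ⟨ξ, hξV, hξS, hξn, t, ht, htV⟩ := Pool.Agent.H59.LV.nonwandering_speed h (by omega)
      hw.1 (by rw [h1]; norm_num) h0
      (inter_mem (hO.mem_nhds hO1) (hO'.mem_nhds hO2)) T
    exact ⟨t, ht, ξ, hξS, hξn.trans h1, hξV.1, htV.2⟩
  dense := by
    rintro ⟨w, w'⟩ ⟨hw, hw', hl⟩ T V hV
    obtain ⟨O, O', hO, hwO, hO', hwO', hsub⟩ := mem_nhds_prod_iff'.1 hV
    obtain ⟨t, ht, ξ, hξ, hξ1, hξO, hξO'⟩ := hl O O' hO hO' hwO hwO' T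
    exact ⟨ξ, ⟨hξ, hξ1⟩, t, ht, hsub ⟨hξO, hξO'⟩⟩
  rank := fun w hw => finrank_ZTU hdim h.sub hw

/-- The geodesic field is in `Y`. -/
theorem X_mem_Y (h : GFlow F S A K K₂ Φ) (hdim : Module.finrank ℝ E = Module.finrank ℝ F + n)
    {w : E × E} (hw : w ∈ UT S) : (w.2, A w) ∈ Y (RS Φ S) w := by
  refine (retRel h hdim).X_mem hw ?_
  have h1 := hasDerivAt_flow h w 0
  rwa [h.flow.zero] at h1

/-- (FG) in terms of the flow. -/
theorem finite_flow (h : GFlow F S A K K₂ Φ) (hsec : Secure S) {x y : E} (T : ℝ) :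
    {p : E × ℝ | (x, p.1) ∈ UT S ∧ |p.2| ≤ T ∧ p.2 ≠ 0 ∧ (Φ p.2 (x, p.1)).1 = y}.Finite := by
  set P := {p : E × ℝ | (x, p.1) ∈ UT S ∧ |p.2| ≤ T ∧ p.2 ≠ 0 ∧ (Φ p.2 (x, p.1)).1 = y} with hP
  rcases P.eq_empty_or_nonempty with h0 | ⟨p₀, hp₀⟩
  · rw [h0]
    exact finite_empty
  have hx : x ∈ S := fst_mem_TSet hp₀.1.1
  have hy : y ∈ S := by
    have h1 := fst_mem_TSet (flow_mem_UT h hp₀.1 p₀.2).1
    rwa [hp₀.2.2.2] at h1
  have hG := finite_geodesics h.compact h.sub hsec hx hy T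
  set G := {γ : ℝ → E | IsGeo S γ ∧ γ 0 = x ∧ γ 1 = y ∧ deriv γ 0 ≠ 0 ∧ ‖deriv γ 0‖ ≤ T} with hGd
  have hD := hG.image fun γ : ℝ → E => deriv γ 0
  have hmem : ∀ p ∈ P, p.2 • p.1 ∈ (fun γ : ℝ → E => deriv γ 0) '' G := by
    rintro ⟨v, t⟩ ⟨hv, hT, ht, hvy⟩
    have hv1 : ‖v‖ = 1 := hv.2
    have hv2 : ‖((x, v) : E × E).2‖ ≤ 2 := by
      show ‖v‖ ≤ 2
      rw [hv1]
      norm_num
    obtain ⟨g1, g2⟩ := h.isGeo hv.1 hv2
    have hd : deriv (fun s => (fun r => (Φ r (x, v)).1) (0 + t * s)) 0 = t • v := by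
      have h1 := congrFun (deriv_affine g1 0 t) 0
      rw [h1]
      show t • deriv (fun r => (Φ r (x, v)).1) (0 + t * 0) = t • v
      rw [g2]
      show t • (Φ (0 + t * 0) (x, v)).2 = t • v
      rw [mul_zero, add_zero, h.flow.zero]
    refine ⟨fun s => (fun r => (Φ r (x, v)).1) (0 + t * s), ⟨g1.affine 0 t, ?_, ?_, ?_, ?_⟩, hd⟩
    · show (Φ (0 + t * 0) (x, v)).1 = x
      rw [mul_zero, add_zero, h.flow.zero]
    · show (Φ (0 + t * 1) (x, v)).1 = y
      rw [mul_one, zero_add]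
      exact hvy
    · rw [hd]
      refine smul_ne_zero ht ?_
      intro h0
      rw [h0, norm_zero] at hv1
      exact zero_ne_one hv1
    · rw [hd, norm_smul, hv1, mul_one]
      exact hT
  refine ((hD.image fun d : E => ((‖d‖⁻¹ • d, ‖d‖) : E × ℝ)).union
    (hD.image fun d : E => ((-(‖d‖⁻¹ • d), -‖d‖) : E × ℝ))).subset ?_
  rintro ⟨v, t⟩ hp
  have hv1 : ‖v‖ = 1 := hp.1.2
  have ht : t ≠ 0 := hp.2.2.1
  have h1 := hmem _ hp
  have hn : ‖t • v‖ = |t| := by rw [norm_smul, hv1, mul_one, Real.norm_eq_abs]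
  rcases lt_or_gt_of_ne ht with hlt | hgt
  · right
    refine ⟨t • v, h1, ?_⟩
    show (-(‖t • v‖⁻¹ • t • v), -‖t • v‖) = (v, t)
    rw [hn, abs_of_neg hlt, neg_neg, smul_smul, inv_neg, neg_mul, inv_mul_cancel₀ ht, neg_smul,
      one_smul, neg_neg]
  · left
    refine ⟨t • v, h1, ?_⟩
    show (‖t • v‖⁻¹ • t • v, ‖t • v‖) = (v, t)
    rw [hn, abs_of_pos hgt, smul_smul, inv_mul_cancel₀ ht, one_smul]

end Pool.Agent.H59.Zar
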