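import Pool.Agent.H59.Zar.RelGood

/-!
# Structure of `ZT R` near `(w₀, Φ t₀ w₀)`; `Y` is involutive
-/

set_option autoImplicit false
set_option linter.unusedSectionVars false

open scoped Topology ContDiff
open Set Filter

namespace Pool.Agent.H59.Zar

/-- Linear algebra: a projection of a subspace is onto if the dimensions are right. -/
theorem exists_of_finrank {X X' Z : Type*} [AddCommGroup X] [Module ℝ X] [FiniteDimensional ℝ X]
    [AddCommGroup X'] [Module ℝ X'] [FiniteDimensional ℝ X'] [AddCommGroup Z] [Module ℝ Z]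
    [FiniteDimensional ℝ Z] (S : Submodule ℝ X) (π : X →ₗ[ℝ] X') (ι : Z →ₗ[ℝ] X)
    (hker : ∀ x ∈ S, π x = 0 → ∃ z, ι z = x) (T : Submodule ℝ X') (hST : ∀ x ∈ S, π x ∈ T)
    (hd : Module.finrank ℝ T + Module.finrank ℝ (S.comap ι) ≤ Module.finrank ℝ S) :
    ∀ y ∈ T, ∃ x ∈ S, π x = y := by
  set π' : S →ₗ[ℝ] X' := π.comp S.subtype with hπ'
  have h1 : Module.finrank ℝ (LinearMap.ker π') ≤ Module.finrank ℝ (S.comap ι) := by
    have h2 : (LinearMap.ker π').map S.subtype ≤ (S.comap ι).map ι := by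
      rintro _ ⟨x, hx, rfl⟩
      have hx' : π (x : X) = 0 := hx
      obtain ⟨z, hz⟩ := hker _ x.2 hx'
      refine ⟨z, ?_, hz⟩
      show ι z ∈ S
      rw [hz]
      exact x.2
    have h3 := Submodule.finrank_mono h2
    rw [Submodule.finrank_map_subtype_eq] at h3
    exact h3.trans (Submodule.finrank_map_le ι _)
  have h4 := LinearMap.finrank_range_add_finrank_ker π'
  have h5 : LinearMap.range π' ≤ T := by
    rintro _ ⟨x, rfl⟩
    exact hST _ x.2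
  have h6 : LinearMap.range π' = T := Submodule.eq_of_le_of_finrank_le h5 (by omega)
  intro y hy
  rw [← h6] at hy
  obtain ⟨x, hx⟩ := hy
  exact ⟨x, x.2, hx⟩

variable {G : Type*} [NormedAddCommGroup G] [NormedSpace ℝ G] [FiniteDimensional ℝ G]
variable {Φ : ℝ → G → G} {U : Set G} {c : ℕ} {R : Set (G × G)}

theorem RetRel.zero_graph (h : RetRel Φ U c R) {w b : G} (hw : w ∈ U) (t : ℝ) :
    ((0 : G), b) ∈ ZT R (w, Φ t w) ↔ b ∈ Y R (Φ t w) := by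
  have h1 := h.mem_graph (a := 0) (b := fderiv ℝ (Φ (-t)) (Φ t w) b) hw t
  rw [h.fderiv_inv'] at h1
  rw [h1, zero_sub, neg_mem_iff, ← h.flow_Y hw t, h.fderiv_inv']
  exact and_iff_right (Submodule.zero_mem _)

theorem RetRel.graph_zero (h : RetRel Φ U c R) {w a : G} (hw : w ∈ U) (t : ℝ) :
    (a, (0 : G)) ∈ ZT R (w, Φ t w) ↔ a ∈ Y R w := by
  have h1 := h.mem_graph (a := a) (b := 0) hw t
  rw [map_zero, sub_zero] at h1
  rw [h1]
  exact ⟨fun h2 => h2.2, fun h2 => ⟨h.Y_le hw h2, h2⟩⟩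

/-- The exact returns accumulate at every point of `R`. -/
theorem RetRel.neBot (h : RetRel Φ U c R) {q : G × G} (hq : q ∈ R) :
    (𝓝[{x : G × G | x.1 ∈ U ∧ ∃ t, x.2 = Φ t x.1}] q).NeBot := by
  rw [← mem_closure_iff_nhdsWithin_neBot, mem_closure_iff_nhds]
  intro O hO
  obtain ⟨w, hw, t, -, h1⟩ := h.dense q hq 0 O hO
  exact ⟨(w, Φ t w), h1, hw, t, rfl⟩

/-- Vectors of `Y` give vectors of `ZT R` (first or second factor); `ι` is one of the two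
inclusions and `s` the corresponding projection. -/
theorem RetRel.mem_of_Y (h : RetRel Φ U c R) {w₀ : G} (hw : w₀ ∈ GoodPt U R) (t₀ : ℝ)
    (s : (G × G) →L[ℝ] G) (ι : G →L[ℝ] G × G) (hs : s (w₀, Φ t₀ w₀) ∈ GoodPt U R)
    (hsR : ∀ q ∈ R, s q ∈ U)
    (hι : ∀ w ∈ U, ∀ t, ∀ b ∈ Y R (s (w, Φ t w)), ι b ∈ ZT R (w, Φ t w)) :
    ∀ᶠ q in 𝓝[R] (w₀, Φ t₀ w₀), ∀ b ∈ Y R (s q), ι b ∈ ZT R q := by
  obtain ⟨P, ⟨OP, hOP, hP⟩, hP'⟩ := h.exists_projR hw t₀
  obtain ⟨Q, ⟨OQ, hOQ, hQ⟩, hQ'⟩ := h.exists_projY hs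
  have hts : Tendsto s (𝓝[R] (w₀, Φ t₀ w₀)) (𝓝[U] (s (w₀, Φ t₀ w₀))) := by
    refine tendsto_nhdsWithin_iff.2 ⟨s.continuous.continuousAt.mono_left nhdsWithin_le_nhds, ?_⟩
    filter_upwards [self_mem_nhdsWithin] with x hx
    exact hsR x hx
  have e1 := hP'.and (hts.eventually hQ')
  have c1 : ∀ᶠ q in 𝓝 (w₀, Φ t₀ w₀), ContinuousAt P q := by
    filter_upwards [eventually_mem_nhds_iff.2 hOP] with q hq
    exact (hP.contDiffAt hq).continuousAt
  have c2 : ∀ᶠ q in 𝓝 (w₀, Φ t₀ w₀), ContinuousAt Q (s q) := by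
    have h1 : ∀ᶠ x in 𝓝 (s (w₀, Φ t₀ w₀)), ContinuousAt Q x := by
      filter_upwards [eventually_mem_nhds_iff.2 hOQ] with q hq
      exact (hQ.contDiffAt hq).continuousAt
    exact s.continuous.continuousAt.eventually h1
  filter_upwards [eventually_eventually_nhdsWithin.2 e1, e1, nhdsWithin_le_nhds c1,
    nhdsWithin_le_nhds c2, self_mem_nhdsWithin] with q h1 h2 h3 h4 hq b hb
  have : (𝓝[{x : G × G | x.1 ∈ U ∧ ∃ t, x.2 = Φ t x.1}] q).NeBot := h.neBot hq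
  set E : Set (G × G) := {x : G × G | x.1 ∈ U ∧ ∃ t, x.2 = Φ t x.1} with hE
  have hER : E ⊆ R := by
    rintro ⟨x, y⟩ ⟨hx, t, ht⟩
    have ht' : y = Φ t x := ht
    rw [ht']
    exact h.mem_flow hx t
  set F : G × G → G × G := fun q' => P q' (ι (Q (s q') b)) - ι (Q (s q') b) with hF
  have hQc : ContinuousAt (fun q' => Q (s q')) q :=
    ContinuousAt.comp (g := Q) (f := s) h4 s.continuous.continuousAt
  have hF1 : ContinuousAt (fun q' => ι (Q (s q') b)) q :=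
    ι.continuous.continuousAt.comp (hQc.clm_apply continuousAt_const)
  have hFc : ContinuousAt F q := (h3.clm_apply hF1).sub hF1
  have hF0 : ∀ᶠ q' in 𝓝[E] q, F q' = 0 := by
    have h5 : ∀ᶠ q' in 𝓝[E] q, _ := (nhdsWithin_mono q hER) h1
    filter_upwards [h5, self_mem_nhdsWithin] with q' h6 h7
    obtain ⟨x, y⟩ := q'
    obtain ⟨hx, t, ht⟩ := h7
    have ht' : y = Φ t x := ht
    subst ht'
    show P _ (ι _) - ι _ = 0
    rw [h6.1.2 _ (hι x hx t _ (h6.2.1 b)), sub_self]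
  have hlim : F q = 0 :=
    tendsto_nhds_unique (hFc.tendsto.mono_left nhdsWithin_le_nhds)
      ((tendsto_congr' hF0).2 tendsto_const_nhds)
  have h8 : P q (ι (Q (s q) b)) = ι (Q (s q) b) := sub_eq_zero.1 hlim
  rw [h2.2.2 b hb] at h8
  rw [← h8]
  exact h2.1.1 _

/-- The dimension of the part of `ZT R` in one factor. -/
theorem RetRel.finrank_part (h : RetRel Φ U c R) {w₀ : G} (hw : w₀ ∈ U) (t₀ : ℝ)
    (ι : G →L[ℝ] G × G) (hι : Module.finrank ℝ ((ZT R (w₀, Φ t₀ w₀)).comap ι.toLinearMap) =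
      Module.finrank ℝ (Y R w₀)) :
    ∀ᶠ q in 𝓝 (w₀, Φ t₀ w₀), Module.finrank ℝ ((ZT R q).comap ι.toLinearMap) ≤
      Module.finrank ℝ (Y R w₀) := by
  obtain ⟨r, f, hf, h0, hp⟩ := exists_eqs R (w₀, Φ t₀ w₀)
  set F : G × G → G →L[ℝ] (Fin r → ℝ) := fun q => (fderiv ℝ f q).comp ι with hF
  have hs : ContDiff ℝ ∞ (fun q => fderiv ℝ f q) := hf.fderiv_right (by simp)
  have hFc : ContinuousAt F (w₀, Φ t₀ w₀) :=
    (hs.clm_comp contDiff_const).continuous.continuousAt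
  have he : (ZT R (w₀, Φ t₀ w₀)).comap ι.toLinearMap =
      LinearMap.ker (F (w₀, Φ t₀ w₀)).toLinearMap := by
    ext b
    rw [Submodule.mem_comap, LinearMap.mem_ker]
    exact hp (ι b)
  filter_upwards [finrank_ker_le hFc] with q hq
  rw [← he, hι] at hq
  refine le_trans (Submodule.finrank_mono ?_) hq
  intro b hb
  rw [LinearMap.mem_ker]
  exact LinearMap.mem_ker.1 (ZT_le_ker hf h0 q hb)

/-- (1.3), structure of `ZT R` near `(w₀, Φ t₀ w₀)`. -/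
theorem RetRel.near (h : RetRel Φ U c R) {w₀ : G} (hw : w₀ ∈ GoodPt U R) (t₀ : ℝ) :
    ∀ᶠ q in 𝓝[R] (w₀, Φ t₀ w₀),
      (∀ b, ((0 : G), b) ∈ ZT R q ↔ b ∈ Y R q.2) ∧ (∀ a, (a, (0 : G)) ∈ ZT R q ↔ a ∈ Y R q.1) ∧
      (∀ a ∈ ZT U q.1, ∃ b, (a, b) ∈ ZT R q) ∧ (∀ b ∈ ZT U q.2, ∃ a, (a, b) ∈ ZT R q) := by
  have hwf := h.good_flow hw t₀
  have hwU : w₀ ∈ U := hw.1
  -- `Y` of the two coordinates
  have a1 := h.mem_of_Y hw t₀ (ContinuousLinearMap.fst ℝ G G) (ContinuousLinearMap.inl ℝ G G) hw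
    (fun q hq => (h.sub q hq).1) (fun w hw t b hb => (h.graph_zero hw t).2 hb)
  have a2 := h.mem_of_Y hw t₀ (ContinuousLinearMap.snd ℝ G G) (ContinuousLinearMap.inr ℝ G G) hwf
    (fun q hq => (h.sub q hq).2) (fun w hw t b hb => (h.zero_graph hw t).2 hb)
  have e1 : (ZT R (w₀, Φ t₀ w₀)).comap (ContinuousLinearMap.inl ℝ G G).toLinearMap = Y R w₀ := by
    ext a
    rw [Submodule.mem_comap]
    exact h.graph_zero hwU t₀
  have e2 : (ZT R (w₀, Φ t₀ w₀)).comap (ContinuousLinearMap.inr ℝ G G).toLinearMap =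
      Y R (Φ t₀ w₀) := by
    ext a
    rw [Submodule.mem_comap]
    exact h.zero_graph hwU t₀
  have b1 := h.finrank_part hwU t₀ (ContinuousLinearMap.inl ℝ G G) (by rw [e1])
  have b2 := h.finrank_part hwU t₀ (ContinuousLinearMap.inr ℝ G G)
    (by rw [e2, h.finrank_flow_Y hwU])
  have ts1 : Tendsto Prod.fst (𝓝[R] (w₀, Φ t₀ w₀)) (𝓝[U] w₀) := by
    refine tendsto_nhdsWithin_iff.2
      ⟨(continuous_fst.tendsto (w₀, Φ t₀ w₀)).mono_left nhdsWithin_le_nhds, ?_⟩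
    filter_upwards [self_mem_nhdsWithin] with x hx
    exact (h.sub x hx).1
  have ts2 : Tendsto Prod.snd (𝓝[R] (w₀, Φ t₀ w₀)) (𝓝[U] (Φ t₀ w₀)) := by
    refine tendsto_nhdsWithin_iff.2
      ⟨(continuous_snd.tendsto (w₀, Φ t₀ w₀)).mono_left nhdsWithin_le_nhds, ?_⟩
    filter_upwards [self_mem_nhdsWithin] with x hx
    exact (h.sub x hx).2
  filter_upwards [a1, a2, nhdsWithin_le_nhds b1, nhdsWithin_le_nhds b2, ts1.eventually hw.2,
    ts2.eventually hwf.2, h.rank_const hw t₀, self_mem_nhdsWithin]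
    with q h1 h2 h3 h4 h5 h6 h7 hq
  rw [h.finrank_flow_Y hwU] at h6
  have k1 : Y R q.1 ≤ (ZT R q).comap (ContinuousLinearMap.inl ℝ G G).toLinearMap := h1
  have k2 : Y R q.2 ≤ (ZT R q).comap (ContinuousLinearMap.inr ℝ G G).toLinearMap := h2
  have k1' := Submodule.eq_of_le_of_finrank_le k1 (by omega)
  have k2' := Submodule.eq_of_le_of_finrank_le k2 (by omega)
  have hU := h.sub q hq
  refine ⟨fun b => ?_, fun a => ?_, fun a ha => ?_, fun b hb => ?_⟩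
  · rw [k2', Submodule.mem_comap]
    rfl
  · rw [k1', Submodule.mem_comap]
    rfl
  · obtain ⟨x, hx, hx'⟩ := exists_of_finrank (ZT R q) (LinearMap.fst ℝ G G)
      (ContinuousLinearMap.inr ℝ G G).toLinearMap
      (fun x _ hx0 => ⟨x.2, Prod.ext (show (0 : G) = x.1 from hx0.symm) rfl⟩) (ZT U q.1)
      (fun x hx => by
        have h8 := map_mem_ZT_univ (R' := U) (Θ := (Prod.fst : G × G → G)) contDiff_fst
          (fun q hq => (h.sub q hq).1) hx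
        rw [fderiv_fst] at h8
        exact h8)
      (by rw [h7, h.rank q.1 hU.1, ← k2', h6]) a ha
    refine ⟨x.2, ?_⟩
    have h9 : (a, x.2) = x := Prod.ext hx'.symm rfl
    rw [h9]
    exact hx
  · obtain ⟨x, hx, hx'⟩ := exists_of_finrank (ZT R q) (LinearMap.snd ℝ G G)
      (ContinuousLinearMap.inl ℝ G G).toLinearMap
      (fun x _ hx0 => ⟨x.1, Prod.ext rfl (show (0 : G) = x.2 from hx0.symm)⟩) (ZT U q.2)
      (fun x hx => by
        have h8 := map_mem_ZT_univ (R' := U) (Θ := (Prod.snd : G × G → G)) contDiff_snd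
          (fun q hq => (h.sub q hq).2) hx
        rw [fderiv_snd] at h8
        exact h8)
      (by rw [h7, h.rank q.2 hU.2, ← k1', h5]) b hb
    refine ⟨x.1, ?_⟩
    have h9 : (x.1, b) = x := Prod.ext rfl hx'.symm
    rw [h9]
    exact hx

/-- (1.4): `Y` is involutive. -/
theorem RetRel.involutive (h : RetRel Φ U c R) {w₀ : G} (hw : w₀ ∈ GoodPt U R) {A B : G → G}
    {O : Set G} (hO : O ∈ 𝓝 w₀) (hA : ContDiffOn ℝ ∞ A O) (hB : ContDiffOn ℝ ∞ B O)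
    (hA' : ∀ w ∈ U, w ∈ O → A w ∈ Y R w) (hB' : ∀ w ∈ U, w ∈ O → B w ∈ Y R w) :
    fderiv ℝ B w₀ (A w₀) - fderiv ℝ A w₀ (B w₀) ∈ Y R w₀ := by
  have hn := h.near hw 0
  rw [h.zero] at hn
  obtain ⟨N, hN, hwN, hN'⟩ := mem_nhdsWithin.1 hn
  set O' : Set (G × G) := N ∩ Prod.snd ⁻¹' O with hO'
  have hO'n : O' ∈ 𝓝 (w₀, w₀) :=
    inter_mem (hN.mem_nhds hwN) ((continuous_snd.tendsto (w₀, w₀)) hO)
  have key : ∀ {C : G → G}, ContDiffOn ℝ ∞ C O → (∀ w ∈ U, w ∈ O → C w ∈ Y R w) →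
      ContDiffOn ℝ ∞ (fun q : G × G => ((0 : G), C q.2)) O' ∧
      (∀ q ∈ R, q ∈ O' → ((0 : G), C q.2) ∈ ZT R q) ∧
      ∀ a : G × G, fderiv ℝ (fun q : G × G => ((0 : G), C q.2)) (w₀, w₀) a =
        ((0 : G), fderiv ℝ C w₀ a.2) := by
    intro C hC hC'
    refine ⟨?_, ?_, ?_⟩
    · exact contDiffOn_const.prodMk (hC.comp contDiff_snd.contDiffOn (fun q hq => hq.2))
    · intro q hq hqO
      have h1 := hN' ⟨hqO.1, hq⟩
      exact (h1.1 _).2 (hC' q.2 (h.sub q hq).2 hqO.2)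
    · intro a
      have hd : HasFDerivAt C (fderiv ℝ C w₀) w₀ :=
        ((hC.contDiffAt hO).differentiableAt (by simp)).hasFDerivAt
      have hd2 : HasFDerivAt (fun q : G × G => C q.2)
          ((fderiv ℝ C w₀).comp (ContinuousLinearMap.snd ℝ G G)) (w₀, w₀) :=
        HasFDerivAt.comp (w₀, w₀) (g := C) (f := Prod.snd) hd hasFDerivAt_snd
      have hd3 := (hasFDerivAt_const (0 : G) (w₀, w₀)).prodMk hd2
      rw [hd3.fderiv]
      rfl
  obtain ⟨sA, mA, dA⟩ := key hA hA'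
  obtain ⟨sB, mB, dB⟩ := key hB hB'
  have h1 := bracket_mem hO'n sA sB mA mB (h.diag w₀ hw.1)
  rw [dA, dB] at h1
  rw [mem_Y]
  have e : ((0 : G), fderiv ℝ B w₀ (A w₀) - fderiv ℝ A w₀ (B w₀)) =
      ((0 : G), fderiv ℝ B w₀ (A w₀)) - ((0 : G), fderiv ℝ A w₀ (B w₀)) := by
    simp
  rw [e]
  exact h1

end Pool.Agent.H59.Zar
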