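import Pool.Agent.H59.Zar.Rel

/-!
# Good points
-/

set_option autoImplicit false
set_option linter.unusedSectionVars false

open scoped Topology ContDiff
open Set Filter

namespace Pool.Agent.H59.Zar

variable {G : Type*} [NormedAddCommGroup G] [NormedSpace ℝ G] [FiniteDimensional ℝ G]
variable {Φ : ℝ → G → G} {U : Set G} {c : ℕ} {R : Set (G × G)}

theorem RetRel.finrank_diag (h : RetRel Φ U c R) {w : G} (hw : w ∈ U) :
    Module.finrank ℝ (ZT R (w, w)) = c + Module.finrank ℝ (Y R w) := by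
  have h1 := h.finrank_graph hw 0
  rwa [h.zero] at h1

theorem RetRel.finrank_Y_le (h : RetRel Φ U c R) {w : G} (hw : w ∈ U) :
    ∀ᶠ w' in 𝓝[U] w, Module.finrank ℝ (Y R w') ≤ Module.finrank ℝ (Y R w) := by
  have hc : Continuous (fun x : G => (x, x)) := continuous_id.prodMk continuous_id
  have h1 : ∀ᶠ w' in 𝓝 w, Module.finrank ℝ (ZT R (w', w')) ≤ Module.finrank ℝ (ZT R (w, w)) :=
    (hc.tendsto w).eventually (finrank_ZT_le R (w, w))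
  filter_upwards [nhdsWithin_le_nhds h1, self_mem_nhdsWithin] with w' h2 hw'
  rw [h.finrank_diag hw', h.finrank_diag hw] at h2
  omega

theorem RetRel.good_open (h : RetRel Φ U c R) {w : G} (hw : w ∈ GoodPt U R) :
    ∀ᶠ w' in 𝓝[U] w, w' ∈ GoodPt U R := by
  obtain ⟨_, h1⟩ := hw
  filter_upwards [self_mem_nhdsWithin, h1, eventually_eventually_nhdsWithin.2 h1] with w' h2 h3 h4
  refine ⟨h2, ?_⟩
  filter_upwards [h4] with x hx
  rw [hx, h3]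

theorem RetRel.good_flow (h : RetRel Φ U c R) {w : G} (hw : w ∈ GoodPt U R) (t : ℝ) :
    Φ t w ∈ GoodPt U R := by
  obtain ⟨hwU, h1⟩ := hw
  refine ⟨h.flow_mem hwU t, ?_⟩
  have hcont : Tendsto (Φ (-t)) (𝓝 (Φ t w)) (𝓝 w) := by
    have h2 := (h.contDiff_flow (-t)).continuous.tendsto (Φ t w)
    rwa [h.flow_neg] at h2
  have ht : Tendsto (Φ (-t)) (𝓝[U] (Φ t w)) (𝓝[U] w) := by
    refine tendsto_nhdsWithin_iff.2 ⟨hcont.mono_left nhdsWithin_le_nhds, ?_⟩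
    filter_upwards [self_mem_nhdsWithin] with x hx
    exact h.flow_mem hx _
  filter_upwards [ht.eventually h1, self_mem_nhdsWithin] with x h2 hx
  rw [h.finrank_flow_Y hx] at h2
  rw [h2, h.finrank_flow_Y hwU]

theorem RetRel.good_dense (h : RetRel Φ U c R) {w : G} (hw : w ∈ U) {O : Set G} (hO : O ∈ 𝓝 w) :
    ∃ w' ∈ O, w' ∈ GoodPt U R := by
  classical
  obtain ⟨O', hO'O, hO', hwO'⟩ := mem_nhds_iff.1 hO
  have hex : ∃ n, ∃ w' ∈ O', w' ∈ U ∧ Module.finrank ℝ (Y R w') = n := ⟨_, w, hwO', hw, rfl⟩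
  obtain ⟨w', h1, h2, h3⟩ := Nat.find_spec hex
  refine ⟨w', hO'O h1, h2, ?_⟩
  filter_upwards [h.finrank_Y_le h2, self_mem_nhdsWithin,
    nhdsWithin_le_nhds (hO'.mem_nhds h1)] with x h4 h5 h6
  refine le_antisymm h4 ?_
  rw [h3]
  exact Nat.find_min' hex ⟨x, h6, h5, rfl⟩

/-- (1.3), rank. -/
theorem RetRel.rank_const (h : RetRel Φ U c R) {w₀ : G} (hw : w₀ ∈ GoodPt U R) (t₀ : ℝ) :
    ∀ᶠ q in 𝓝[R] (w₀, Φ t₀ w₀), Module.finrank ℝ (ZT R q) = c + Module.finrank ℝ (Y R w₀) := by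
  obtain ⟨hwU, h1⟩ := hw
  obtain ⟨N, hN, hwN, hN'⟩ := mem_nhdsWithin.1 h1
  have h2 : ∀ᶠ q : G × G in 𝓝 (w₀, Φ t₀ w₀), q.1 ∈ N :=
    (continuous_fst.tendsto (w₀, Φ t₀ w₀)).eventually (hN.mem_nhds hwN)
  have h3 := finrank_ZT_le R (w₀, Φ t₀ w₀)
  rw [h.finrank_graph hwU] at h3
  filter_upwards [nhdsWithin_le_nhds h2, nhdsWithin_le_nhds h3, self_mem_nhdsWithin]
    with q h4 h5 h6
  refine le_antisymm h5 ?_
  have h7 : ∀ᶠ q' : G × G in 𝓝 q, q'.1 ∈ N :=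
    (continuous_fst.tendsto q).eventually (hN.mem_nhds h4)
  obtain ⟨w, hw, t, -, h8, h9⟩ := h.dense q h6 0 _ (h7.and (finrank_ZT_le R q))
  have h10 : Module.finrank ℝ (Y R w) = Module.finrank ℝ (Y R w₀) := hN' ⟨h8, hw⟩
  rw [← h10, ← h.finrank_graph hw t]
  exact h9

theorem RetRel.rank_const' (h : RetRel Φ U c R) {w₀ : G} (hw : w₀ ∈ GoodPt U R) (t₀ : ℝ) :
    ∀ᶠ q in 𝓝[R] (w₀, Φ t₀ w₀),
      Module.finrank ℝ (ZT R q) = Module.finrank ℝ (ZT R (w₀, Φ t₀ w₀)) := by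
  rw [h.finrank_graph hw.1]
  exact h.rank_const hw t₀

/-- A smooth projection onto `Y` near a good point. -/
theorem RetRel.exists_projY (h : RetRel Φ U c R) {w₀ : G} (hw : w₀ ∈ GoodPt U R) :
    ∃ Q : G → G →L[ℝ] G, (∃ O ∈ 𝓝 w₀, ContDiffOn ℝ ∞ Q O) ∧
      ∀ᶠ w in 𝓝[U] w₀, (∀ a, Q w a ∈ Y R w) ∧ ∀ a ∈ Y R w, Q w a = a := by
  have h1 := h.rank_const' hw 0
  rw [h.zero] at h1
  obtain ⟨r, f, P, hf, h0, hP, he⟩ := exists_proj h1
  have hc : Continuous (fun x : G => (x, x)) := continuous_id.prodMk continuous_id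
  have ht : Tendsto (fun x : G => (x, x)) (𝓝[U] w₀) (𝓝[R] (w₀, w₀)) := by
    refine tendsto_nhdsWithin_iff.2 ⟨(hc.tendsto w₀).mono_left nhdsWithin_le_nhds, ?_⟩
    filter_upwards [self_mem_nhdsWithin] with x hx
    exact h.diag x hx
  set F : G → G →L[ℝ] (Fin r → ℝ) :=
    fun w => (fderiv ℝ f (w, w)).comp (ContinuousLinearMap.inr ℝ G G) with hF
  have hFa : ∀ w b, F w b = fderiv ℝ f (w, w) ((0 : G), b) := fun w b => rfl
  have hs : ContDiff ℝ ∞ (fun q => fderiv ℝ f q) := hf.fderiv_right (by simp)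
  have hFs : ContDiff ℝ ∞ F :=
    (hs.comp (contDiff_id.prodMk contDiff_id)).clm_comp contDiff_const
  have hY : ∀ᶠ w in 𝓝[U] w₀, ∀ b, b ∈ Y R w ↔ F w b = 0 := by
    filter_upwards [ht.eventually he] with w hw' b
    rw [mem_Y, hw'.1, hFa]
  have hY' : ∀ {w : G}, (∀ b, b ∈ Y R w ↔ F w b = 0) →
      Y R w = LinearMap.ker (F w).toLinearMap := by
    intro w hw'
    ext b
    rw [hw' b, LinearMap.mem_ker]
    rfl
  have hY0 := hY' (hY.self_of_nhdsWithin hw.1)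
  obtain ⟨Q, hQ, hQ'⟩ := exists_proj_ker (G := F) (x₀ := w₀) univ_mem hFs.contDiffOn
  refine ⟨Q, hQ, ?_⟩
  filter_upwards [nhdsWithin_le_nhds hQ', hY, hw.2] with w h2 h3 h4
  rw [hY' h3, hY0] at h4
  obtain ⟨h5, h6⟩ := h2 h4
  exact ⟨fun a => (h3 _).2 (h5 a), fun a ha => h6 a ((h3 a).1 ha)⟩

/-- A smooth projection onto `ZT R` near `(w₀, Φ t₀ w₀)`. -/
theorem RetRel.exists_projR (h : RetRel Φ U c R) {w₀ : G} (hw : w₀ ∈ GoodPt U R) (t₀ : ℝ) :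
    ∃ P : G × G → (G × G) →L[ℝ] (G × G), (∃ O ∈ 𝓝 (w₀, Φ t₀ w₀), ContDiffOn ℝ ∞ P O) ∧
      ∀ᶠ q in 𝓝[R] (w₀, Φ t₀ w₀), (∀ a, P q a ∈ ZT R q) ∧ ∀ a ∈ ZT R q, P q a = a := by
  obtain ⟨r, f, P, hf, h0, hP, he⟩ := exists_proj (h.rank_const' hw t₀)
  refine ⟨P, hP, ?_⟩
  filter_upwards [he] with q hq
  exact ⟨hq.2.1, hq.2.2⟩

end Pool.Agent.H59.Zar
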