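import Pool.Agent.H59.Zar.Rel

/-!
# Rigidity: section 6.3
-/

set_option autoImplicit false
set_option linter.unusedSectionVars false

open scoped Topology ContDiff
open Set Filter

namespace Pool.Agent.H59.Zar

variable {G : Type*} [NormedAddCommGroup G] [NormedSpace ℝ G] [FiniteDimensional ℝ G]
variable {Φ : ℝ → G → G} {U : Set G} {c : ℕ} {R : Set (G × G)}

/-- (6.3). -/
theorem RetRel.rigid (h : RetRel Φ U c R) {w₀ : G} (hw : w₀ ∈ U) {W : Type*}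
    [NormedAddCommGroup W] [NormedSpace ℝ W] (L : G →L[ℝ] W) (hL : ∀ b ∈ Y R w₀, L b = 0 → b = 0) :
    ∃ C : ℝ, 0 < C ∧ ∀ᶠ q in 𝓝[R] (w₀, w₀), ‖q.2 - q.1‖ ≤ C * ‖L (q.2 - q.1)‖ := by
  obtain ⟨r, f, hf, h0, hp⟩ := exists_eqs R (w₀, w₀)
  set D : (G × G) →L[ℝ] (Fin r → ℝ) := fderiv ℝ f (w₀, w₀) with hD
  let T : G →L[ℝ] (Fin r → ℝ) × W := (D.comp (ContinuousLinearMap.inr ℝ G G)).prod L
  have hT : LinearMap.ker T.toLinearMap = ⊥ := by
    rw [LinearMap.ker_eq_bot']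
    intro b hb
    have hb1 : T b = 0 := hb
    have hb2 : D (0, b) = 0 := congrArg Prod.fst hb1
    have hb3 : L b = 0 := congrArg Prod.snd hb1
    exact hL b (mem_Y.2 ((hp _).2 hb2)) hb3
  obtain ⟨K, hK0, hK⟩ := LinearMap.exists_antilipschitzWith T.toLinearMap hT
  have hKpos : (0 : ℝ) < K := by exact_mod_cast hK0
  have hbound : ∀ b : G, ‖b‖ ≤ K * max ‖D (0, b)‖ ‖L b‖ := by
    intro b
    have h1 := hK.le_mul_dist b 0
    rw [dist_zero_right] at h1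
    have h2 : dist (T.toLinearMap b) (T.toLinearMap 0) = max ‖D (0, b)‖ ‖L b‖ := by
      rw [map_zero, dist_zero_right]
      rfl
    rwa [h2] at h1
  have hs : HasStrictFDerivAt f D (w₀, w₀) :=
    hf.contDiffAt.hasStrictFDerivAt (by simp)
  have hε : (0 : ℝ) < 1 / (2 * K) := by positivity
  have h3 := hs.isLittleO.def hε
  have hcont : Tendsto (fun q : G × G => ((q.1, q.2), (q.1, q.1))) (𝓝 (w₀, w₀))
      (𝓝 ((w₀, w₀), (w₀, w₀))) := by
    have : Continuous (fun q : G × G => ((q.1, q.2), (q.1, q.1))) := by fun_prop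
    exact this.tendsto (w₀, w₀)
  have h4 := hcont.eventually h3
  refine ⟨2 * K, by positivity, ?_⟩
  filter_upwards [nhdsWithin_le_nhds h4, self_mem_nhdsWithin] with q hq hqR
  have e1 : f (q.1, q.2) = 0 := h0 _ hqR
  have e2 : f (q.1, q.1) = 0 := h0 _ (h.diag _ (h.sub _ hqR).1)
  have e3 : (q.1, q.2) - (q.1, q.1) = ((0 : G), q.2 - q.1) := by
    rw [Prod.mk_sub_mk, sub_self]
  simp only [e1, e2, e3, sub_zero, zero_sub, norm_neg] at hq
  have e4 : ‖((0 : G), q.2 - q.1)‖ = ‖q.2 - q.1‖ := by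
    rw [Prod.norm_def]
    simp
  rw [e4] at hq
  have h5 := hbound (q.2 - q.1)
  have h6 : (K : ℝ) * max ‖D (0, q.2 - q.1)‖ ‖L (q.2 - q.1)‖ ≤
      K * ‖D (0, q.2 - q.1)‖ + K * ‖L (q.2 - q.1)‖ := by
    rw [← mul_add]
    apply mul_le_mul_of_nonneg_left _ hKpos.le
    exact max_le (le_add_of_nonneg_right (norm_nonneg _)) (le_add_of_nonneg_left (norm_nonneg _))
  have h7 : (K : ℝ) * ‖D (0, q.2 - q.1)‖ ≤ ‖q.2 - q.1‖ / 2 := by
    have h8 := mul_le_mul_of_nonneg_left hq hKpos.le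
    have h9 : (K : ℝ) * (1 / (2 * K) * ‖q.2 - q.1‖) = ‖q.2 - q.1‖ / 2 := by
      field_simp
    rwa [h9] at h8
  linarith

end Pool.Agent.H59.Zar
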