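import Mathlib

/-!
# Zariski tangent spaces of subsets of a finite-dimensional space

`ZT R p` is the common kernel at `p` of the derivatives of all smooth functions which vanish on `R`.
-/

set_option autoImplicit false
set_option linter.unusedSectionVars false

open scoped Topology ContDiff
open Set Filter

namespace Pool.Agent.H59.Zar

variable {V W : Type*} [NormedAddCommGroup V] [NormedSpace ℝ V]
  [NormedAddCommGroup W] [NormedSpace ℝ W]

/-- Smooth functions which vanish on `R`. -/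
def Van (R : Set V) (f : V → ℝ) : Prop := ContDiff ℝ ∞ f ∧ ∀ q ∈ R, f q = 0

/-- The Zariski tangent space. -/
def ZT (R : Set V) (p : V) : Submodule ℝ V where
  carrier := {a | ∀ f, Van R f → fderiv ℝ f p a = 0}
  add_mem' := by
    intro a b ha hb f hf
    rw [map_add, ha f hf, hb f hf, add_zero]
  zero_mem' := fun f _ => map_zero _
  smul_mem' := by
    intro c a ha f hf
    rw [map_smul, ha f hf, smul_zero]

theorem mem_ZT {R : Set V} {p a : V} : a ∈ ZT R p ↔ ∀ f, Van R f → fderiv ℝ f p a = 0 := Iff.rfl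

theorem ZT_mono {R R' : Set V} (h : R ⊆ R') (p : V) : ZT R p ≤ ZT R' p :=
  fun _ ha f hf => ha f ⟨hf.1, fun q hq => hf.2 q (h hq)⟩

section local_

variable [FiniteDimensional ℝ V]

/-- Cutting off: a function smooth near `p` agrees near `p` with a globally smooth one, a multiple
of it. -/
theorem exists_cutoff {f : V → ℝ} {p : V} {U : Set V} (hU : U ∈ 𝓝 p) (hf : ContDiffOn ℝ ∞ f U) :
    ∃ g : V → ℝ, ContDiff ℝ ∞ g ∧ g =ᶠ[𝓝 p] f ∧ ∀ q, g q ≠ 0 → q ∈ U ∧ f q ≠ 0 := by
  obtain ⟨ε, hε, hball⟩ := Metric.mem_nhds_iff.1 hU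
  let χ : ContDiffBump p := ⟨ε / 4, ε / 2, by positivity, by linarith⟩
  refine ⟨fun q => χ q * f q, ?_, ?_, ?_⟩
  · rw [contDiff_iff_contDiffAt]
    intro q
    by_cases hq : q ∈ Metric.ball p ε
    · have h1 : ContDiffAt ℝ ∞ f q :=
        (hf.mono hball).contDiffAt (Metric.isOpen_ball.mem_nhds hq)
      exact (χ.contDiff.contDiffAt).mul h1
    · have h2 : (fun q => χ q * f q) =ᶠ[𝓝 q] fun _ => (0 : ℝ) := by
        have h3 : (Metric.closedBall p (ε / 2))ᶜ ∈ 𝓝 q := by
          apply Metric.isClosed_closedBall.isOpen_compl.mem_nhds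
          simp only [Metric.mem_ball, not_lt, mem_compl_iff, Metric.mem_closedBall, not_le] at hq ⊢
          linarith
        filter_upwards [h3] with r hr
        have h4 : χ r = 0 := by
          apply χ.zero_of_le_dist
          simp only [mem_compl_iff, Metric.mem_closedBall, not_le] at hr
          exact hr.le
        rw [h4, zero_mul]
      exact contDiffAt_const.congr_of_eventuallyEq h2
  · filter_upwards [χ.eventuallyEq_one] with q hq
    rw [hq]
    simp
  · intro q hq
    have h1 : χ q ≠ 0 := left_ne_zero_of_mul hq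
    have h2 : f q ≠ 0 := right_ne_zero_of_mul hq
    refine ⟨hball ?_, h2⟩
    have h3 : q ∈ Function.support χ := h1
    rw [χ.support_eq] at h3
    exact Metric.ball_subset_ball (by show ε / 2 ≤ ε; linarith) h3

/-- (Z3), scalar form. -/
theorem fderiv_eq_zero {R : Set V} {f : V → ℝ} {p a : V} {U : Set V} (hU : U ∈ 𝓝 p)
    (hf : ContDiffOn ℝ ∞ f U) (h0 : ∀ q ∈ R, q ∈ U → f q = 0) (ha : a ∈ ZT R p) :
    fderiv ℝ f p a = 0 := by
  obtain ⟨g, hg, hgf, hs⟩ := exists_cutoff hU hf
  have h1 : Van R g := by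
    refine ⟨hg, fun q hq => ?_⟩
    by_contra h
    exact (hs q h).2 (h0 q hq (hs q h).1)
  rw [← hgf.fderiv_eq]
  exact ha g h1

/-- (Z3) for maps with values in a finite-dimensional space. -/
theorem fderiv_eq_zero' [FiniteDimensional ℝ W] {R : Set V} {f : V → W} {p a : V} {U : Set V}
    (hU : U ∈ 𝓝 p) (hf : ContDiffOn ℝ ∞ f U) (h0 : ∀ q ∈ R, q ∈ U → f q = 0) (ha : a ∈ ZT R p) :
    fderiv ℝ f p a = 0 := by
  have key : ∀ l : W →L[ℝ] ℝ, l (fderiv ℝ f p a) = 0 := by
    intro l
    have hd : DifferentiableAt ℝ f p :=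
      (hf.contDiffAt hU).differentiableAt (by simp)
    have h1 : fderiv ℝ (fun q => l (f q)) p = l.comp (fderiv ℝ f p) := by
      have := (l.hasFDerivAt (x := f p)).comp p hd.hasFDerivAt
      exact this.fderiv
    have h2 := fderiv_eq_zero (R := R) (f := fun q => l (f q)) hU (l.contDiff.comp_contDiffOn hf)
      (fun q hq hqU => by rw [h0 q hq hqU, map_zero]) ha
    rw [h1] at h2
    exact h2
  by_contra hne
  obtain ⟨l, hl⟩ := SeparatingDual.exists_eq_one (R := ℝ) hne
  rw [key l] at hl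
  exact zero_ne_one hl

/-- (Z4). -/
theorem map_mem_ZT [FiniteDimensional ℝ W] {R : Set V} {R' : Set W} {Θ : V → W} {p a : V}
    {U : Set V} (hU : U ∈ 𝓝 p) (hΘ : ContDiffOn ℝ ∞ Θ U) (h0 : ∀ q ∈ R, q ∈ U → Θ q ∈ R')
    (ha : a ∈ ZT R p) : fderiv ℝ Θ p a ∈ ZT R' (Θ p) := by
  intro f hf
  have hd : DifferentiableAt ℝ Θ p :=
    (hΘ.contDiffAt hU).differentiableAt (by simp)
  have hfd : DifferentiableAt ℝ f (Θ p) := hf.1.contDiffAt.differentiableAt (by simp)
  have h1 : fderiv ℝ (fun q => f (Θ q)) p = (fderiv ℝ f (Θ p)).comp (fderiv ℝ Θ p) :=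
    (hfd.hasFDerivAt.comp p hd.hasFDerivAt).fderiv
  have h2 := fderiv_eq_zero (R := R) (f := fun q => f (Θ q)) hU (hf.1.comp_contDiffOn hΘ)
    (fun q hq hqU => hf.2 _ (h0 q hq hqU)) ha
  rw [h1] at h2
  exact h2

end local_

end Pool.Agent.H59.Zar
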