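import Mathlib

/-!
# Families of kernels of constant rank: semicontinuity, smooth projections
-/

set_option autoImplicit false
set_option linter.unusedSectionVars false

open scoped Topology ContDiff
open Set Filter

namespace Pool.Agent.H59.Zar

variable {V W M : Type*} [NormedAddCommGroup V] [NormedSpace ℝ V] [FiniteDimensional ℝ V]
  [NormedAddCommGroup W] [NormedSpace ℝ W] [FiniteDimensional ℝ W]
  [NormedAddCommGroup M] [NormedSpace ℝ M]

/-- Invertible endomorphisms are open, the inverse is smooth. -/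
theorem inverse_facts {D : Type*} [NormedAddCommGroup D] [NormedSpace ℝ D] [FiniteDimensional ℝ D] :
    IsOpen {T : D →L[ℝ] D | IsUnit T} ∧
    ∀ T : D →L[ℝ] D, IsUnit T →
      ContDiffAt ℝ ∞ (Ring.inverse : (D →L[ℝ] D) → (D →L[ℝ] D)) T := by
  have : CompleteSpace D := FiniteDimensional.complete ℝ D
  refine ⟨Units.isOpen, ?_⟩
  rintro T ⟨u, rfl⟩
  exact contDiffAt_ringInverse ℝ u

/-- A complement of the kernel and a left inverse on it. -/
theorem exists_compl_leftInv (L : V →L[ℝ] W) : ∃ (C : Submodule ℝ V) (B : W →L[ℝ] C),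
    IsCompl (LinearMap.ker L.toLinearMap) C ∧ ∀ c : C, B (L (c : V)) = c := by
  obtain ⟨C, hC⟩ := Submodule.exists_isCompl (LinearMap.ker L.toLinearMap)
  have hinj : LinearMap.ker (L.toLinearMap.comp C.subtype) = ⊥ := by
    rw [LinearMap.ker_eq_bot']
    intro c hc
    have h1 : (c : V) ∈ LinearMap.ker L.toLinearMap := hc
    have h2 := (Submodule.disjoint_def.1 hC.disjoint) (c : V) h1 c.2
    exact Subtype.ext h2
  obtain ⟨g, hg⟩ := LinearMap.exists_leftInverse_of_injective _ hinj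
  refine ⟨C, LinearMap.toContinuousLinearMap g, hC, fun c => ?_⟩
  exact LinearMap.congr_fun hg c

/-- The kernel of a map which is injective on a complement of `K`. -/
theorem finrank_ker_le_of_inj {Z : Type*} [AddCommGroup Z] [Module ℝ Z] {K C : Submodule ℝ V}
    (hC : IsCompl K C) (T : V →ₗ[ℝ] Z) (hT : ∀ c ∈ C, T c = 0 → c = 0) :
    Module.finrank ℝ (LinearMap.ker T) ≤ Module.finrank ℝ K := by
  have hd : Disjoint (LinearMap.ker T) C := by
    rw [Submodule.disjoint_def]
    intro c hc hcC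
    exact hT c hcC hc
  have h1 := Submodule.finrank_add_finrank_le_of_disjoint hd
  have h2 := Submodule.finrank_add_eq_of_isCompl hC
  omega

/-- Composition with a left inverse is near the identity on the complement. -/
theorem eventually_isUnit {G : M → V →L[ℝ] W} {x₀ : M} (hG : ContinuousAt G x₀)
    {C : Submodule ℝ V} {B : W →L[ℝ] C} (hB : ∀ c : C, B (G x₀ (c : V)) = c) :
    ∀ᶠ x in 𝓝 x₀, IsUnit (B ∘L (G x) ∘L C.subtypeL) := by
  have h1 : ContinuousAt (fun x => B ∘L (G x) ∘L C.subtypeL) x₀ :=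
    continuousAt_const.clm_comp (hG.clm_comp continuousAt_const)
  have h2 : B ∘L (G x₀) ∘L C.subtypeL = 1 := by
    ext c
    exact congrArg Subtype.val (hB c)
  have h3 : {T : C →L[ℝ] C | IsUnit T} ∈ 𝓝 (B ∘L (G x₀) ∘L C.subtypeL) := by
    refine (inverse_facts (D := C)).1.mem_nhds ?_
    show IsUnit (B ∘L (G x₀) ∘L C.subtypeL)
    rw [h2]; exact isUnit_one
  exact h1 h3

theorem inj_of_isUnit {L : V →L[ℝ] W} {C : Submodule ℝ V} {B : W →L[ℝ] C}
    (h : IsUnit (B ∘L L ∘L C.subtypeL)) (c : V) (hc : c ∈ C) (h0 : B (L c) = 0) : c = 0 := by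
  obtain ⟨u, hu⟩ := h
  have h1 : (u : C →L[ℝ] C) ⟨c, hc⟩ = 0 := by rw [hu]; exact h0
  have h2 : ((↑u⁻¹ : C →L[ℝ] C) * (u : C →L[ℝ] C)) ⟨c, hc⟩ = ⟨c, hc⟩ := by
    rw [Units.inv_mul]; rfl
  have h3 : ((↑u⁻¹ : C →L[ℝ] C) * (u : C →L[ℝ] C)) ⟨c, hc⟩ = 0 := by
    show (↑u⁻¹ : C →L[ℝ] C) ((u : C →L[ℝ] C) ⟨c, hc⟩) = 0
    rw [h1, map_zero]
  rw [h2] at h3
  exact congrArg Subtype.val h3

/-- Kernels of a continuous family: the dimension is upper semicontinuous. -/
theorem finrank_ker_le {G : M → V →L[ℝ] W} {x₀ : M} (hG : ContinuousAt G x₀) :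
    ∀ᶠ x in 𝓝 x₀, Module.finrank ℝ (LinearMap.ker (G x).toLinearMap) ≤
      Module.finrank ℝ (LinearMap.ker (G x₀).toLinearMap) := by
  obtain ⟨C, B, hC, hB⟩ := exists_compl_leftInv (G x₀)
  filter_upwards [eventually_isUnit hG hB] with x hx
  refine finrank_ker_le_of_inj hC _ fun c hc h0 => inj_of_isUnit hx c hc ?_
  have h1 : G x c = 0 := h0
  rw [h1, map_zero]

/-- Smooth projections onto the kernels of a smooth family, at the points where the rank is the same
as at `x₀`. -/
theorem exists_proj_ker {G : M → V →L[ℝ] W} {x₀ : M} {U : Set M} (hU : U ∈ 𝓝 x₀)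
    (hG : ContDiffOn ℝ ∞ G U) :
    ∃ P : M → V →L[ℝ] V, (∃ U' ∈ 𝓝 x₀, ContDiffOn ℝ ∞ P U') ∧
      (∀ᶠ x in 𝓝 x₀, Module.finrank ℝ (LinearMap.ker (G x).toLinearMap) =
        Module.finrank ℝ (LinearMap.ker (G x₀).toLinearMap) → (∀ a, G x (P x a) = 0) ∧
        ∀ a, G x a = 0 → P x a = a) := by
  obtain ⟨C, B, hC, hB⟩ := exists_compl_leftInv (G x₀)
  have hGx : ∀ x ∈ interior U, ContDiffAt ℝ ∞ G x := fun x hx =>
    hG.contDiffAt (mem_interior_iff_mem_nhds.1 hx)
  have hG0 : ContDiffAt ℝ ∞ G x₀ := hG.contDiffAt hU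
  have hun := eventually_isUnit hG0.continuousAt hB
  set S : M → C →L[ℝ] C := fun x => B ∘L (G x) ∘L C.subtypeL with hS
  refine ⟨fun x => ContinuousLinearMap.id ℝ V -
    C.subtypeL ∘L (Ring.inverse (S x)) ∘L B ∘L (G x), ⟨interior U ∩ {x | IsUnit (S x)}, ?_, ?_⟩, ?_⟩
  · exact inter_mem (interior_mem_nhds.2 hU) hun
  · rintro x ⟨hxU, hx⟩
    have c1 : ContDiffAt ℝ ∞ S x :=
      contDiffAt_const.clm_comp ((hGx x hxU).clm_comp contDiffAt_const)
    have c2 : ContDiffAt ℝ ∞ (Ring.inverse : (C →L[ℝ] C) → (C →L[ℝ] C)) (S x) :=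
      (inverse_facts (D := C)).2 (S x) hx
    have c3 : ContDiffAt ℝ ∞ (fun x => Ring.inverse (S x)) x :=
      ContDiffAt.comp x (g := (Ring.inverse : (C →L[ℝ] C) → (C →L[ℝ] C))) c2 c1
    exact (contDiffAt_const.sub (contDiffAt_const.clm_comp (c3.clm_comp
      (contDiffAt_const.clm_comp (hGx x hxU))))).contDiffWithinAt
  · filter_upwards [hun] with x hx hrank
    refine ⟨fun a => ?_, fun a ha => ?_⟩
    · set L : V →ₗ[ℝ] C := (B ∘L (G x)).toLinearMap with hL
      have h1 : LinearMap.ker (G x).toLinearMap ≤ LinearMap.ker L := by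
        intro c hc
        have hc' : G x c = 0 := hc
        show B (G x c) = 0
        rw [hc', map_zero]
      have h2 : Module.finrank ℝ (LinearMap.ker L) ≤
          Module.finrank ℝ (LinearMap.ker (G x).toLinearMap) := by
        rw [hrank]
        exact finrank_ker_le_of_inj hC L fun c hc h0 => inj_of_isUnit hx c hc h0
      have h3 := Submodule.eq_of_le_of_finrank_le h1 h2
      set b : C := Ring.inverse (S x) (B (G x a)) with hb
      have h4 : S x b = B (G x a) := by
        have h5 : (S x * Ring.inverse (S x)) (B (G x a)) = B (G x a) := by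
          rw [Ring.mul_inverse_cancel _ hx]; rfl
        exact h5
      have h6 : a - (b : V) ∈ LinearMap.ker L := by
        show B (G x (a - (b : V))) = 0
        rw [map_sub, map_sub]
        have h7 : B (G x (b : V)) = S x b := rfl
        rw [h7, h4, sub_self]
      rw [← h3] at h6
      exact h6
    · show a - ((Ring.inverse (S x) (B (G x a)) : C) : V) = a
      rw [ha, map_zero, map_zero]
      simp

end Pool.Agent.H59.Zar
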