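import Pool.Agent.H59.Zar.Basic
import Pool.Agent.H59.Zar.KerFam

/-!
# Semicontinuity; smooth projections onto Zariski tangent spaces
-/

set_option autoImplicit false
set_option linter.unusedSectionVars false

open scoped Topology ContDiff
open Set Filter

namespace Pool.Agent.H59.Zar

variable {V W M : Type*} [NormedAddCommGroup V] [NormedSpace ℝ V] [FiniteDimensional ℝ V]
  [NormedAddCommGroup W] [NormedSpace ℝ W] [FiniteDimensional ℝ W]
  [NormedAddCommGroup M] [NormedSpace ℝ M]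

/-- components of the derivative -/
theorem fderiv_comp_apply {r : ℕ} {f : V → Fin r → ℝ} (hf : ContDiff ℝ ∞ f) (q a : V) (i : Fin r) :
    fderiv ℝ (fun x => f x i) q a = fderiv ℝ f q a i := by
  have hd : ∀ j, DifferentiableAt ℝ (fun x => f x j) q := fun j =>
    ((contDiff_pi.1 hf j).differentiable (by simp)).differentiableAt
  have h := fderiv_pi (𝕜 := ℝ) (φ := fun j x => f x j) (x := q) hd
  have e : (fun x j => f x j) = f := rfl
  have h' : fderiv ℝ f q = ContinuousLinearMap.pi fun j => fderiv ℝ (fun x => f x j) q := h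
  rw [h']
  rfl

theorem van_comp {R : Set V} {r : ℕ} {f : V → Fin r → ℝ} (hf : ContDiff ℝ ∞ f)
    (h0 : ∀ q ∈ R, f q = 0) (i : Fin r) : Van R (fun x => f x i) :=
  ⟨contDiff_pi.1 hf i, fun q hq => by
    show f q i = 0
    rw [h0 q hq]
    rfl⟩

theorem ZT_le_ker {R : Set V} {r : ℕ} {f : V → Fin r → ℝ} (hf : ContDiff ℝ ∞ f)
    (h0 : ∀ q ∈ R, f q = 0) (q : V) : ZT R q ≤ LinearMap.ker (fderiv ℝ f q).toLinearMap := by
  intro a ha
  rw [LinearMap.mem_ker]
  show fderiv ℝ f q a = 0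
  funext i
  rw [← fderiv_comp_apply hf]
  exact ha _ (van_comp hf h0 i)

/-- Finitely many equations are enough at one point. -/
theorem exists_eqs (R : Set V) (p : V) :
    ∃ (r : ℕ) (f : V → Fin r → ℝ), ContDiff ℝ ∞ f ∧ (∀ q ∈ R, f q = 0) ∧
      ∀ a, a ∈ ZT R p ↔ fderiv ℝ f p a = 0 := by
  classical
  let Q : ℕ → Prop := fun k => ∃ (r : ℕ) (f : V → Fin r → ℝ), ContDiff ℝ ∞ f ∧ (∀ q ∈ R, f q = 0) ∧
    Module.finrank ℝ (LinearMap.ker (fderiv ℝ f p).toLinearMap) = k
  have hQ : ∃ k, Q k := ⟨_, 0, fun _ => 0, contDiff_const, fun _ _ => rfl, rfl⟩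
  obtain ⟨r, f, hf, h0, hk⟩ := Nat.find_spec hQ
  refine ⟨r, f, hf, h0, fun a => ⟨fun ha => LinearMap.mem_ker.1 (ZT_le_ker hf h0 p ha), fun ha g hg => ?_⟩⟩
  by_contra hne
  let f' : V → Fin (r + 1) → ℝ := fun q => Fin.cons (g q) (f q)
  have hf' : ContDiff ℝ ∞ f' := by
    refine contDiff_pi.2 fun i => ?_
    refine Fin.cases ?_ (fun j => ?_) i
    · exact hg.1
    · exact contDiff_pi.1 hf j
  have h0' : ∀ q ∈ R, f' q = 0 := by
    intro q hq
    funext i
    refine Fin.cases ?_ (fun j => ?_) i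
    · exact hg.2 q hq
    · show f q j = 0
      rw [h0 q hq]
      rfl
  have hlt : LinearMap.ker (fderiv ℝ f' p).toLinearMap < LinearMap.ker (fderiv ℝ f p).toLinearMap := by
    refine lt_of_le_of_ne ?_ ?_
    · intro b hb
      rw [LinearMap.mem_ker] at hb ⊢
      have hb' : fderiv ℝ f' p b = 0 := hb
      show fderiv ℝ f p b = 0
      funext j
      rw [← fderiv_comp_apply hf]
      have e := fderiv_comp_apply hf' p b j.succ
      rw [hb'] at e
      exact e
    · intro he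
      have ha' : a ∈ LinearMap.ker (fderiv ℝ f p).toLinearMap := LinearMap.mem_ker.2 ha
      rw [← he] at ha'
      have hb' : fderiv ℝ f' p a = 0 := LinearMap.mem_ker.1 ha'
      have e := fderiv_comp_apply hf' p a 0
      rw [hb'] at e
      exact hne e
  have h1 := Submodule.finrank_lt_finrank_of_lt hlt
  have h2 := Nat.find_min' hQ (m := Module.finrank ℝ (LinearMap.ker (fderiv ℝ f' p).toLinearMap))
    ⟨r + 1, f', hf', h0', rfl⟩
  omega

/-- (Z1). -/
theorem finrank_ZT_le (R : Set V) (p : V) :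
    ∀ᶠ q in 𝓝 p, Module.finrank ℝ (ZT R q) ≤ Module.finrank ℝ (ZT R p) := by
  obtain ⟨r, f, hf, h0, hp⟩ := exists_eqs R p
  have hc : ContinuousAt (fun q => fderiv ℝ f q) p := (hf.continuous_fderiv (by simp)).continuousAt
  have he : ZT R p = LinearMap.ker (fderiv ℝ f p).toLinearMap := by
    ext a
    rw [hp a, LinearMap.mem_ker]
    rfl
  filter_upwards [finrank_ker_le hc] with q hq
  rw [he]
  exact (Submodule.finrank_mono (ZT_le_ker hf h0 q)).trans hq

/-- (Z2): equations and a smooth projection onto the Zariski tangent spaces at the points of `R`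
near `p` if the dimension is locally constant on `R`. -/
theorem exists_proj {R : Set V} {p : V}
    (hc : ∀ᶠ q in 𝓝[R] p, Module.finrank ℝ (ZT R q) = Module.finrank ℝ (ZT R p)) :
    ∃ (r : ℕ) (f : V → Fin r → ℝ) (P : V → V →L[ℝ] V), ContDiff ℝ ∞ f ∧ (∀ q ∈ R, f q = 0) ∧
      (∃ U ∈ 𝓝 p, ContDiffOn ℝ ∞ P U) ∧
      ∀ᶠ q in 𝓝[R] p, (∀ a, a ∈ ZT R q ↔ fderiv ℝ f q a = 0) ∧ (∀ a, P q a ∈ ZT R q) ∧
        ∀ a ∈ ZT R q, P q a = a := by
  obtain ⟨r, f, hf, h0, hp⟩ := exists_eqs R p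
  have hs : ContDiff ℝ ∞ (fun q => fderiv ℝ f q) := hf.fderiv_right (by simp)
  have hc' : ContinuousAt (fun q => fderiv ℝ f q) p := hs.continuous.continuousAt
  have he : ZT R p = LinearMap.ker (fderiv ℝ f p).toLinearMap := by
    ext a
    rw [hp a, LinearMap.mem_ker]
    rfl
  obtain ⟨P, hP, hP'⟩ := exists_proj_ker (G := fun q => fderiv ℝ f q) (x₀ := p) univ_mem hs.contDiffOn
  refine ⟨r, f, P, hf, h0, hP, ?_⟩
  filter_upwards [hc, nhdsWithin_le_nhds (finrank_ker_le hc'), nhdsWithin_le_nhds hP'] with q h1 h2 h3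
  rw [he] at h1
  have h4 := Submodule.finrank_mono (ZT_le_ker hf h0 q)
  have h5 : ZT R q = LinearMap.ker (fderiv ℝ f q).toLinearMap :=
    Submodule.eq_of_le_of_finrank_le (ZT_le_ker hf h0 q) (by omega)
  have h6 := h3 (by omega)
  have h7 : ∀ a, a ∈ ZT R q ↔ fderiv ℝ f q a = 0 := by
    intro a
    rw [h5, LinearMap.mem_ker]
    rfl
  exact ⟨h7, fun a => (h7 _).2 (h6.1 a), fun a ha => h6.2 a ((h7 a).1 ha)⟩

/-- Differentiating an identity on `R` along a smooth field of Zariski tangent vectors gives an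
identity on `R`; such fields are closed under brackets. -/
theorem bracket_mem {R : Set V} {p : V} {A B : V → V} {U : Set V} (hU : U ∈ 𝓝 p)
    (hA : ContDiffOn ℝ ∞ A U) (hB : ContDiffOn ℝ ∞ B U)
    (hA' : ∀ q ∈ R, q ∈ U → A q ∈ ZT R q) (hB' : ∀ q ∈ R, q ∈ U → B q ∈ ZT R q) (hp : p ∈ R) :
    fderiv ℝ B p (A p) - fderiv ℝ A p (B p) ∈ ZT R p := by
  have hpU : p ∈ U := mem_of_mem_nhds hU
  intro f hf
  have hs : ContDiff ℝ ∞ (fun q => fderiv ℝ f q) := hf.1.fderiv_right (by simp)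
  have hsd : DifferentiableAt ℝ (fun q => fderiv ℝ f q) p := (hs.differentiable (by simp)).differentiableAt
  have hAd : DifferentiableAt ℝ A p := (hA.contDiffAt hU).differentiableAt (by simp)
  have hBd : DifferentiableAt ℝ B p := (hB.contDiffAt hU).differentiableAt (by simp)
  have key : ∀ {C D : V → V}, ContDiffOn ℝ ∞ C U → DifferentiableAt ℝ C p →
      (∀ q ∈ R, q ∈ U → C q ∈ ZT R q) → D p ∈ ZT R p →
      fderiv ℝ f p (fderiv ℝ C p (D p)) + fderiv ℝ (fun q => fderiv ℝ f q) p (D p) (C p) = 0 := by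
    intro C D hC hCd hC' hD
    have h1 := fderiv_eq_zero (R := R) (f := fun q => fderiv ℝ f q (C q)) (a := D p) hU
      (hs.contDiffOn.clm_apply hC) (fun q hq hqU => hC' q hq hqU f hf) hD
    rw [fderiv_clm_apply hsd hCd] at h1
    exact h1
  have h1 := key (C := A) (D := B) hA hAd hA' (hB' p hp hpU)
  have h2 := key (C := B) (D := A) hB hBd hB' (hA' p hp hpU)
  have h3 : fderiv ℝ (fun q => fderiv ℝ f q) p (A p) (B p) =
      fderiv ℝ (fun q => fderiv ℝ f q) p (B p) (A p) :=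
    second_derivative_symmetric (f := f) (f' := fun q => fderiv ℝ f q)
      (fun y => ((hf.1.differentiable (by simp)) y).hasFDerivAt) hsd.hasFDerivAt (A p) (B p)
  rw [map_sub]
  linarith

end Pool.Agent.H59.Zar
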