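import Pool.Agent.H59.Zar.Basic

/-!
# The Zariski tangent space of the zero set of a submersion
-/

set_option autoImplicit false
set_option linter.unusedSectionVars false

open scoped Topology ContDiff
open Set Filter

namespace Pool.Agent.H59.Zar

variable {V W : Type*} [NormedAddCommGroup V] [NormedSpace ℝ V] [FiniteDimensional ℝ V]
  [NormedAddCommGroup W] [NormedSpace ℝ W] [FiniteDimensional ℝ W]

theorem mem_ZT_iff {R : Set V} {g : V → W} {p a : V} {U : Set V} (hU : U ∈ 𝓝 p)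
    (hg : ContDiffOn ℝ ∞ g U) (hs : Function.Surjective (fderiv ℝ g p))
    (hR : ∀ q ∈ U, (q ∈ R ↔ g q = 0)) (hp : p ∈ R) :
    a ∈ ZT R p ↔ fderiv ℝ g p a = 0 := by
  constructor
  · intro ha
    exact fderiv_eq_zero' hU hg (fun q hq hqU => (hR q hqU).1 hq) ha
  · intro ha φ hφ
    have hcomp : CompleteSpace V := FiniteDimensional.complete ℝ V
    have hst : HasStrictFDerivAt g (fderiv ℝ g p) p :=
      (hg.contDiffAt hU).hasStrictFDerivAt (by simp)
    have hr : (fderiv ℝ g p).range = ⊤ := by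
      rw [LinearMap.range_eq_top]
      exact hs
    have h0 : g p = 0 := (hR p (mem_of_mem_nhds hU)).1 hp
    set ψ := hst.implicitFunction g (fderiv ℝ g p) hr (g p) with hψ
    have hψ0 : ψ 0 = p := hst.implicitFunction_apply_image hr
    have hψd : HasStrictFDerivAt ψ (fderiv ℝ g p).ker.subtypeL 0 := hst.to_implicitFunction hr
    have hψR : ∀ᶠ z in 𝓝 (0 : (fderiv ℝ g p).ker), φ (ψ z) = 0 := by
      have h1 : Tendsto (fun z : (fderiv ℝ g p).ker => (g p, z)) (𝓝 0) (𝓝 (g p, 0)) :=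
        tendsto_const_nhds.prodMk_nhds tendsto_id
      have h2 := h1.eventually (hst.map_implicitFunction_eq hr)
      have h3 : ∀ᶠ z in 𝓝 (0 : (fderiv ℝ g p).ker), ψ z ∈ U := by
        apply hψd.continuousAt.preimage_mem_nhds
        rw [hψ0]
        exact hU
      filter_upwards [h2, h3] with z hz hzU
      refine hφ.2 _ ((hR _ hzU).2 ?_)
      have h4 : g (ψ z) = g p := hz
      rw [h4, h0]
    have hφd : HasFDerivAt φ (fderiv ℝ φ p) (ψ 0) := by
      rw [hψ0]
      exact (hφ.1.contDiffAt.differentiableAt (by simp)).hasFDerivAt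
    have h5 : HasFDerivAt (fun z => φ (ψ z)) ((fderiv ℝ φ p).comp (fderiv ℝ g p).ker.subtypeL) 0 :=
      hφd.comp 0 hψd.hasFDerivAt
    have h6 : HasFDerivAt (fun z => φ (ψ z)) (0 : (fderiv ℝ g p).ker →L[ℝ] ℝ) 0 :=
      (hasFDerivAt_const (0 : ℝ) _).congr_of_eventuallyEq hψR
    have h7 := h5.unique h6
    have h8 := congrArg (fun T : (fderiv ℝ g p).ker →L[ℝ] ℝ => T ⟨a, ha⟩) h7
    exact h8

end Pool.Agent.H59.Zar
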