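import Pool.Agent.H59.Zar.Sub
import Pool.Agent.H59.ND.Lead

/-!
# Tangent spaces of `S` and of the unit tangent bundle

`ZT S x` is the tangent space of the submanifold `S` at `x`, `ZT (UT S) w` the tangent space of the
unit tangent bundle at `w`. The horizontal part of `a` is `a.1`, the vertical part is the tangential
part of `a.2`.
-/

set_option autoImplicit false
set_option linter.unusedSectionVars false

open scoped Topology ContDiff InnerProductSpace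
open Set Filter

namespace Pool.Agent.H59.Zar

open Pool.Agent.H91.GE Pool.Agent.H59.LV Pool.Agent.H59.ND

variable {E F : Type*} [NormedAddCommGroup E] [InnerProductSpace ℝ E] [FiniteDimensional ℝ E]
  [NormedAddCommGroup F] [InnerProductSpace ℝ F] [FiniteDimensional ℝ F]
  {S : Set E} {A : E × E → E} {K K₂ : NNReal} {Φ : ℝ → E × E → E × E} {n : ℕ}

theorem mem_TS' {O : Set E} {f : E → F} (hf : IsLoc S O f) {x v : E} (hx : x ∈ S) (hO : x ∈ O) :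
    v ∈ ZT S x ↔ fderiv ℝ f x v = 0 :=
  mem_ZT_iff (hf.isOpen.mem_nhds hO) hf.smooth (hf.surj x hO) (fun _ hq => hf.mem_iff hq) hx

theorem mem_TS (hsub : IsSub F S) {x v : E} (hx : x ∈ S) : v ∈ ZT S x ↔ (x, v) ∈ TSet S := by
  obtain ⟨O, hO, f, hf⟩ := hsub x hx
  rw [mem_TS' hf hx hO, mem_TSet_iff hf hO]
  exact ⟨fun h => ⟨hx, h⟩, fun h => h.2⟩

theorem finrank_ker {V W : Type*} [NormedAddCommGroup V] [NormedSpace ℝ V] [FiniteDimensional ℝ V]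
    [NormedAddCommGroup W] [NormedSpace ℝ W] [FiniteDimensional ℝ W] {L : V →L[ℝ] W}
    (hL : Function.Surjective L) :
    Module.finrank ℝ W + Module.finrank ℝ (LinearMap.ker L.toLinearMap) = Module.finrank ℝ V := by
  have h1 := LinearMap.finrank_range_add_finrank_ker L.toLinearMap
  have h2 : LinearMap.range L.toLinearMap = ⊤ := LinearMap.range_eq_top.2 hL
  rw [h2, finrank_top] at h1
  exact h1

theorem finrank_TS (hdim : Module.finrank ℝ E = Module.finrank ℝ F + n) (hsub : IsSub F S) {x : E}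
    (hx : x ∈ S) : Module.finrank ℝ (ZT S x) = n := by
  obtain ⟨O, hO, f, hf⟩ := hsub x hx
  have h1 : ZT S x = LinearMap.ker (fderiv ℝ f x).toLinearMap := by
    ext v
    rw [mem_TS' hf hx hO]
    rfl
  have h2 := finrank_ker (hf.surj x hO)
  rw [h1]
  omega

/-- Local equations of the unit tangent bundle. -/
noncomputable def gU (f : E → F) (w : E × E) : F × F × ℝ :=
  (f w.1, fderiv ℝ f w.1 w.2, ⟪w.2, w.2⟫_ℝ - 1)

theorem gU_smooth {O : Set E} {f : E → F} (hf : IsLoc S O f) :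
    ContDiffOn ℝ ∞ (gU f) {w : E × E | w.1 ∈ O} := by
  intro w hw
  have h1 : ContDiffAt ℝ ∞ f w.1 := hf.contDiffAt hw
  have h2 : ContDiffAt ℝ ∞ (fderiv ℝ f) w.1 := h1.fderiv_right (by norm_num)
  have h3 : ContDiffAt ℝ ∞ (fun w : E × E => f w.1) w := ContDiffAt.comp w h1 contDiffAt_fst
  have h4 : ContDiffAt ℝ ∞ (fun w : E × E => fderiv ℝ f w.1) w :=
    ContDiffAt.comp w h2 contDiffAt_fst
  have h5 : ContDiffAt ℝ ∞ (fun w : E × E => fderiv ℝ f w.1 w.2) w :=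
    h4.clm_apply contDiffAt_snd
  have h6 : ContDiffAt ℝ ∞ (fun w : E × E => ⟪w.2, w.2⟫_ℝ - 1) w :=
    (contDiffAt_snd.inner ℝ contDiffAt_snd).sub contDiffAt_const
  exact (h3.prodMk (h5.prodMk h6)).contDiffWithinAt

theorem fderiv_gU {O : Set E} {f : E → F} (hf : IsLoc S O f) {w : E × E} (hw : w.1 ∈ O)
    (a : E × E) : fderiv ℝ (gU f) w a = (fderiv ℝ f w.1 a.1,
      fderiv ℝ (fderiv ℝ f) w.1 a.1 w.2 + fderiv ℝ f w.1 a.2, 2 * ⟪w.2, a.2⟫_ℝ) := by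
  have h1 : ContDiffAt ℝ ∞ f w.1 := hf.contDiffAt hw
  have h2 : ContDiffAt ℝ ∞ (fderiv ℝ f) w.1 := h1.fderiv_right (by norm_num)
  have d1 : HasFDerivAt f (fderiv ℝ f w.1) w.1 := (h1.differentiableAt (by simp)).hasFDerivAt
  have d2 : HasFDerivAt (fderiv ℝ f) (fderiv ℝ (fderiv ℝ f) w.1) w.1 :=
    (h2.differentiableAt (by simp)).hasFDerivAt
  have d3 : HasFDerivAt (fun w : E × E => f w.1)
      ((fderiv ℝ f w.1).comp (ContinuousLinearMap.fst ℝ E E)) w :=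
    HasFDerivAt.comp w (g := f) d1 hasFDerivAt_fst
  have d4 : HasFDerivAt (fun w : E × E => fderiv ℝ f w.1)
      ((fderiv ℝ (fderiv ℝ f) w.1).comp (ContinuousLinearMap.fst ℝ E E)) w :=
    HasFDerivAt.comp w (g := fderiv ℝ f) d2 hasFDerivAt_fst
  have d5 := d4.clm_apply (hasFDerivAt_snd (𝕜 := ℝ) (E := E) (F := E) (p := w))
  have d6 := ((hasFDerivAt_snd (𝕜 := ℝ) (E := E) (F := E) (p := w)).inner ℝ
    (hasFDerivAt_snd (𝕜 := ℝ) (E := E) (F := E) (p := w))).sub_const (1 : ℝ)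
  have d7 := d3.prodMk (d5.prodMk d6)
  have d8 : HasFDerivAt (gU f) _ w := d7
  rw [d8.fderiv]
  refine Prod.ext ?_ (Prod.ext ?_ ?_)
  · rfl
  · simp only [ContinuousLinearMap.prod_apply, ContinuousLinearMap.add_apply,
      ContinuousLinearMap.comp_apply, ContinuousLinearMap.flip_apply,
      ContinuousLinearMap.coe_fst', ContinuousLinearMap.coe_snd']
    abel
  · simp only [ContinuousLinearMap.prod_apply, ContinuousLinearMap.comp_apply,
      ContinuousLinearMap.coe_snd', fderivInnerCLM_apply]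
    rw [real_inner_comm w.2 a.2]
    ring

theorem mem_UT_iff {O : Set E} {f : E → F} (hf : IsLoc S O f) {w : E × E} (hw : w.1 ∈ O) :
    w ∈ UT S ↔ gU f w = 0 := by
  have h1 : w ∈ TSet S ↔ w.1 ∈ S ∧ fderiv ℝ f w.1 w.2 = 0 := mem_TSet_iff hf hw
  have h2 : ‖w.2‖ = 1 ↔ ⟪w.2, w.2⟫_ℝ - 1 = 0 := by
    rw [real_inner_self_eq_norm_sq, sub_eq_zero]
    constructor
    · intro h
      rw [h, one_pow]
    · intro h
      exact (sq_eq_sq₀ (norm_nonneg _) zero_le_one).1 (by rw [h, one_pow])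
  show w ∈ TSet S ∧ ‖w.2‖ = 1 ↔ _
  rw [h1, h2, hf.mem_iff hw]
  show _ ↔ ((f w.1, fderiv ℝ f w.1 w.2, ⟪w.2, w.2⟫_ℝ - 1) : F × F × ℝ) = 0
  rw [Prod.mk_eq_zero, Prod.mk_eq_zero, and_assoc]

theorem gU_surj {O : Set E} {f : E → F} (hf : IsLoc S O f) {w : E × E} (hw : w ∈ UT S)
    (hO : w.1 ∈ O) : Function.Surjective (fderiv ℝ (gU f) w) := by
  rintro ⟨y₁, y₂, r⟩
  have hs := hf.surj w.1 hO
  have hv : fderiv ℝ f w.1 w.2 = 0 := ((mem_TSet_iff hf hO (v := w.2)).1 hw.1).2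
  set a₁ := Rinv (fderiv ℝ f w.1) y₁ with ha₁
  set z := y₂ - fderiv ℝ (fderiv ℝ f) w.1 a₁ w.2 with hz
  refine ⟨(a₁, Rinv (fderiv ℝ f w.1) z + (r / 2) • w.2), ?_⟩
  rw [fderiv_gU hf hO]
  have hvv : ⟪w.2, w.2⟫_ℝ = 1 := by
    rw [real_inner_self_eq_norm_sq, hw.2, one_pow]
  refine Prod.ext ?_ (Prod.ext ?_ ?_)
  · exact comp_Rinv hs y₁
  · show fderiv ℝ (fderiv ℝ f) w.1 a₁ w.2
      + fderiv ℝ f w.1 (Rinv (fderiv ℝ f w.1) z + (r / 2) • w.2) = y₂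
    rw [map_add, map_smul, hv, smul_zero, add_zero, comp_Rinv hs, hz]
    abel
  · show 2 * ⟪w.2, Rinv (fderiv ℝ f w.1) z + (r / 2) • w.2⟫_ℝ = r
    rw [inner_add_right, real_inner_smul_right, hvv, real_inner_comm, inner_Rinv z hv]
    ring

/-- The tangent space of the unit tangent bundle in terms of local equations. -/
theorem mem_ZTU {O : Set E} {f : E → F} (hf : IsLoc S O f) {w a : E × E} (hw : w ∈ UT S)
    (hO : w.1 ∈ O) : a ∈ ZT (UT S) w ↔ fderiv ℝ f w.1 a.1 = 0 ∧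
      fderiv ℝ (fderiv ℝ f) w.1 a.1 w.2 + fderiv ℝ f w.1 a.2 = 0 ∧ ⟪w.2, a.2⟫_ℝ = 0 := by
  have hopen : IsOpen {w : E × E | w.1 ∈ O} := hf.isOpen.preimage continuous_fst
  rw [mem_ZT_iff (g := gU f) (hopen.mem_nhds hO) (gU_smooth hf) (gU_surj hf hw hO)
    (fun q hq => mem_UT_iff hf hq) hw, fderiv_gU hf hO, Prod.mk_eq_zero, Prod.mk_eq_zero]
  simp

theorem finrank_ZTU (hdim : Module.finrank ℝ E = Module.finrank ℝ F + n) (hsub : IsSub F S)
    {w : E × E} (hw : w ∈ UT S) : Module.finrank ℝ (ZT (UT S) w) = 2 * n - 1 := by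
  obtain ⟨O, hO, f, hf⟩ := hsub w.1 (fst_mem_TSet hw.1)
  have hopen : IsOpen {w : E × E | w.1 ∈ O} := hf.isOpen.preimage continuous_fst
  have h1 : ZT (UT S) w = LinearMap.ker (fderiv ℝ (gU f) w).toLinearMap := by
    ext v
    rw [mem_ZT_iff (g := gU f) (hopen.mem_nhds hO) (gU_smooth hf) (gU_surj hf hw hO)
      (fun q hq => mem_UT_iff hf hq) hw]
    rfl
  have h2 := finrank_ker (gU_surj hf hw hO)
  rw [h1]
  simp only [Module.finrank_prod, Module.finrank_self] at h2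
  omega

theorem snd_mem_TS (hsub : IsSub F S) {w : E × E} (hw : w ∈ UT S) : w.2 ∈ ZT S w.1 :=
  (mem_TS hsub (fst_mem_TSet hw.1)).2 hw.1

theorem fst_mem_TS {w a : E × E} (hw : w ∈ UT S) (ha : a ∈ ZT (UT S) w) : a.1 ∈ ZT S w.1 := by
  have h1 := map_mem_ZT (R := UT S) (R' := S) (Θ := (Prod.fst : E × E → E)) (p := w) (a := a)
    (U := univ) univ_mem contDiff_fst.contDiffOn (fun q hq _ => fst_mem_TSet hq.1) ha
  rwa [(hasFDerivAt_fst (𝕜 := ℝ) (E := E) (F := E) (p := w)).fderiv] at h1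

theorem inner_snd {w a : E × E} (ha : a ∈ ZT (UT S) w) : ⟪w.2, a.2⟫_ℝ = 0 := by
  have d6 := ((hasFDerivAt_snd (𝕜 := ℝ) (E := E) (F := E) (p := w)).inner ℝ
    (hasFDerivAt_snd (𝕜 := ℝ) (E := E) (F := E) (p := w))).sub_const (1 : ℝ)
  have h1 := fderiv_eq_zero (R := UT S) (f := fun w : E × E => ⟪w.2, w.2⟫_ℝ - 1) (p := w) (a := a)
    (U := univ) univ_mem ((contDiff_snd.inner ℝ contDiff_snd).sub contDiff_const).contDiffOn
    (fun q hq _ => by rw [real_inner_self_eq_norm_sq, hq.2, one_pow, sub_self]) ha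
  rw [d6.fderiv] at h1
  simp only [ContinuousLinearMap.prod_apply, ContinuousLinearMap.comp_apply,
      ContinuousLinearMap.coe_snd', fderivInnerCLM_apply] at h1
  rw [real_inner_comm w.2 a.2] at h1
  linarith

theorem ver_mem_iff (hsub : IsSub F S) {w : E × E} (hw : w ∈ UT S) {ξ : E} :
    ((0 : E), ξ) ∈ ZT (UT S) w ↔ ξ ∈ ZT S w.1 ∧ ⟪w.2, ξ⟫_ℝ = 0 := by
  obtain ⟨O, hO, f, hf⟩ := hsub w.1 (fst_mem_TSet hw.1)
  rw [mem_ZTU hf hw hO, mem_TS' hf (fst_mem_TSet hw.1) hO]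
  simp

theorem exists_lift (hsub : IsSub F S) {w : E × E} (hw : w ∈ UT S) {u : E} (hu : u ∈ ZT S w.1) :
    ∃ b, (u, b) ∈ ZT (UT S) w := by
  obtain ⟨O, hO, f, hf⟩ := hsub w.1 (fst_mem_TSet hw.1)
  have hv : fderiv ℝ f w.1 w.2 = 0 := ((mem_TSet_iff hf hO (v := w.2)).1 hw.1).2
  refine ⟨Rinv (fderiv ℝ f w.1) (-(fderiv ℝ (fderiv ℝ f) w.1 u w.2)), ?_⟩
  rw [mem_ZTU hf hw hO]
  refine ⟨(mem_TS' hf (fst_mem_TSet hw.1) hO).1 hu, ?_, ?_⟩
  · show fderiv ℝ (fderiv ℝ f) w.1 u w.2 + fderiv ℝ f w.1 (Rinv (fderiv ℝ f w.1)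
      (-(fderiv ℝ (fderiv ℝ f) w.1 u w.2))) = 0
    rw [comp_Rinv (hf.surj w.1 hO)]
    abel
  · rw [real_inner_comm]
    exact inner_Rinv _ hv

/-- The derivative of the acceleration in vertical directions. -/
theorem dA_eq (h : GFlow F S A K K₂ Φ) {O : Set E} {f : E → F} (hf : IsLoc S O f) {w : E × E}
    (hw : w ∈ UT S) (hO : w.1 ∈ O) {u : E} (hu : u ∈ ZT S w.1) :
    fderiv ℝ A w (0, u) = -((2 : ℝ) • Rinv (fderiv ℝ f w.1)
      (fderiv ℝ (fderiv ℝ f) w.1 u w.2)) := by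
  have hx := fst_mem_TSet hw.1
  have hv : fderiv ℝ f w.1 w.2 = 0 := ((mem_TSet_iff hf hO (v := w.2)).1 hw.1).2
  have hu' := (mem_TS' hf hx hO).1 hu
  have hl : HasDerivAt (fun s : ℝ => ((w.1, w.2 + s • u) : E × E)) (0, u) 0 := by
    have h2 : HasDerivAt (fun s : ℝ => w.2 + s • u) u 0 := by
      simpa using ((hasDerivAt_id (0 : ℝ)).smul_const u).const_add w.2
    exact (hasDerivAt_const (0 : ℝ) w.1).prodMk h2
  have hA : HasFDerivAt A (fderiv ℝ A w) ((fun s : ℝ => ((w.1, w.2 + s • u) : E × E)) 0) := by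
    have e : ((fun s : ℝ => ((w.1, w.2 + s • u) : E × E)) 0) = w := by
      simp
    rw [e]
    exact (h.field.smooth.differentiable (by simp) w).hasFDerivAt
  have d1 : HasDerivAt (fun s : ℝ => A (w.1, w.2 + s • u)) (fderiv ℝ A w (0, u)) 0 :=
    hA.comp_hasDerivAt (0 : ℝ) hl
  have hev : (fun s : ℝ => A (w.1, w.2 + s • u)) =ᶠ[𝓝 0]
      fun s => Acc f w.1 (w.2 + s • u) := by
    have hc : Continuous fun s : ℝ => ‖w.2 + s • u‖ := by fun_prop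
    have h1 : ∀ᶠ s in 𝓝 (0 : ℝ), ‖w.2 + s • u‖ < 2 := by
      apply hc.continuousAt.eventually_lt_const
      show ‖w.2 + (0 : ℝ) • u‖ < 2
      rw [zero_smul, add_zero, hw.2]
      norm_num
    filter_upwards [h1] with s hs
    refine h.field.eq (w.1, w.2 + s • u) ?_ hs.le O f hf hO
    exact (mem_TSet_iff hf hO).2 ⟨hx, by rw [map_add, map_smul, hv, hu', smul_zero, add_zero]⟩
  have hsym : IsSymmSndFDerivAt ℝ f w.1 :=
    (hf.contDiffAt hO).isSymmSndFDerivAt (by simpa using two_le_top')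
  have hq : (fun s : ℝ => Acc f w.1 (w.2 + s • u)) = fun s =>
      -(Rinv (fderiv ℝ f w.1) (fderiv ℝ (fderiv ℝ f) w.1 w.2 w.2)
        + (2 * s) • Rinv (fderiv ℝ f w.1) (fderiv ℝ (fderiv ℝ f) w.1 u w.2)
        + (s ^ 2) • Rinv (fderiv ℝ f w.1) (fderiv ℝ (fderiv ℝ f) w.1 u u)) := by
    funext s
    show -(Rinv (fderiv ℝ f w.1) (fderiv ℝ (fderiv ℝ f) w.1 (w.2 + s • u) (w.2 + s • u))) = _
    congr 1
    have e : fderiv ℝ (fderiv ℝ f) w.1 (w.2 + s • u) (w.2 + s • u)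
        = fderiv ℝ (fderiv ℝ f) w.1 w.2 w.2 + (2 * s) • fderiv ℝ (fderiv ℝ f) w.1 u w.2
          + (s ^ 2) • fderiv ℝ (fderiv ℝ f) w.1 u u := by
      simp only [map_add, map_smul, ContinuousLinearMap.add_apply, ContinuousLinearMap.smul_apply]
      rw [hsym.eq w.2 u]
      module
    rw [e, map_add, map_add, map_smul, map_smul]
  rw [hq] at hev
  have d2 : HasDerivAt (fun s : ℝ =>
      -(Rinv (fderiv ℝ f w.1) (fderiv ℝ (fderiv ℝ f) w.1 w.2 w.2)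
        + (2 * s) • Rinv (fderiv ℝ f w.1) (fderiv ℝ (fderiv ℝ f) w.1 u w.2)
        + (s ^ 2) • Rinv (fderiv ℝ f w.1) (fderiv ℝ (fderiv ℝ f) w.1 u u)))
      (-((2 : ℝ) • Rinv (fderiv ℝ f w.1) (fderiv ℝ (fderiv ℝ f) w.1 u w.2))) 0 := by
    have e1 : HasDerivAt (fun s : ℝ => 2 * s) 2 0 := by
      simpa using (hasDerivAt_id (0 : ℝ)).const_mul 2
    have e2 : HasDerivAt (fun s : ℝ => s ^ 2) 0 0 := by
      simpa using hasDerivAt_pow 2 (0 : ℝ)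
    have e3 := (((e1.smul_const (Rinv (fderiv ℝ f w.1)
      (fderiv ℝ (fderiv ℝ f) w.1 u w.2))).const_add
      (Rinv (fderiv ℝ f w.1) (fderiv ℝ (fderiv ℝ f) w.1 w.2 w.2))).add
      (e2.smul_const (Rinv (fderiv ℝ f w.1) (fderiv ℝ (fderiv ℝ f) w.1 u u)))).neg
    have e4 : HasDerivAt (fun s : ℝ =>
      -(Rinv (fderiv ℝ f w.1) (fderiv ℝ (fderiv ℝ f) w.1 w.2 w.2)
        + (2 * s) • Rinv (fderiv ℝ f w.1) (fderiv ℝ (fderiv ℝ f) w.1 u w.2)
        + (s ^ 2) • Rinv (fderiv ℝ f w.1) (fderiv ℝ (fderiv ℝ f) w.1 u u))) _ 0 := e3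
    rw [zero_smul, add_zero] at e4
    exact e4
  exact d1.unique (d2.congr_of_eventuallyEq hev)

/-- The normal part of `a.2`. -/
theorem tan_part (h : GFlow F S A K K₂ Φ) {w a : E × E} (hw : w ∈ UT S) (ha : a ∈ ZT (UT S) w) :
    a.2 - (1 / 2 : ℝ) • fderiv ℝ A w (0, a.1) ∈ ZT S w.1 := by
  obtain ⟨O, hO, f, hf⟩ := h.sub w.1 (fst_mem_TSet hw.1)
  have ha1 := fst_mem_TS hw ha
  obtain ⟨-, h2, -⟩ := (mem_ZTU hf hw hO).1 ha
  rw [dA_eq h hf hw hO ha1, mem_TS' hf (fst_mem_TSet hw.1) hO, map_sub, map_smul, map_neg,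
    map_smul, comp_Rinv (hf.surj w.1 hO)]
  rw [← h2]
  module

theorem inner_dA (h : GFlow F S A K K₂ Φ) {w : E × E} (hw : w ∈ UT S) {u e : E}
    (hu : u ∈ ZT S w.1) (he : e ∈ ZT S w.1) : ⟪fderiv ℝ A w (0, u), e⟫_ℝ = 0 := by
  obtain ⟨O, hO, f, hf⟩ := h.sub w.1 (fst_mem_TSet hw.1)
  rw [dA_eq h hf hw hO hu, inner_neg_left, real_inner_smul_left,
    inner_Rinv _ ((mem_TS' hf (fst_mem_TSet hw.1) hO).1 he), mul_zero, neg_zero]

/-- Conversely: pairs with tangential first component and the right normal part of the second. -/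
theorem mem_ZTU_iff (h : GFlow F S A K K₂ Φ) {w a : E × E} (hw : w ∈ UT S) :
    a ∈ ZT (UT S) w ↔ a.1 ∈ ZT S w.1 ∧
      a.2 - (1 / 2 : ℝ) • fderiv ℝ A w (0, a.1) ∈ ZT S w.1 ∧ ⟪w.2, a.2⟫_ℝ = 0 := by
  refine ⟨fun ha => ⟨fst_mem_TS hw ha, tan_part h hw ha, inner_snd ha⟩, ?_⟩
  rintro ⟨h1, h2, h3⟩
  obtain ⟨O, hO, f, hf⟩ := h.sub w.1 (fst_mem_TSet hw.1)
  rw [mem_ZTU hf hw hO]
  refine ⟨(mem_TS' hf (fst_mem_TSet hw.1) hO).1 h1, ?_, h3⟩
  rw [dA_eq h hf hw hO h1, mem_TS' hf (fst_mem_TSet hw.1) hO, map_sub, map_smul, map_neg,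
    map_smul, comp_Rinv (hf.surj w.1 hO)] at h2
  rw [← h2]
  module

/-- The acceleration is normal. -/
theorem inner_A (h : GFlow F S A K K₂ Φ) {w : E × E} (hw : w ∈ UT S) {e : E} (he : e ∈ ZT S w.1) :
    ⟪A w, e⟫_ℝ = 0 :=
  h.inner_A (q := w.1) (v := w.2) hw.1 (by rw [hw.2]; norm_num)
    ((mem_TS h.sub (fst_mem_TSet hw.1)).1 he)

/-- The geodesic vector field. -/
theorem X_mem_ZTU (h : GFlow F S A K K₂ Φ) {w : E × E} (hw : w ∈ UT S) :
    (w.2, A w) ∈ ZT (UT S) w := by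
  obtain ⟨O, hO, f, hf⟩ := h.sub w.1 (fst_mem_TSet hw.1)
  have hv : fderiv ℝ f w.1 w.2 = 0 := ((mem_TSet_iff hf hO (v := w.2)).1 hw.1).2
  have hA : A w = Acc f w.1 w.2 := h.field.eq w hw.1 (by rw [hw.2]; norm_num) O f hf hO
  rw [mem_ZTU hf hw hO]
  refine ⟨hv, ?_, ?_⟩
  · show fderiv ℝ (fderiv ℝ f) w.1 w.2 w.2 + fderiv ℝ f w.1 (A w) = 0
    rw [hA]
    show fderiv ℝ (fderiv ℝ f) w.1 w.2 w.2 + fderiv ℝ f w.1
      (-(Rinv (fderiv ℝ f w.1) (fderiv ℝ (fderiv ℝ f) w.1 w.2 w.2))) = 0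
    rw [map_neg, comp_Rinv (hf.surj w.1 hO)]
    abel
  · rw [real_inner_comm]
    exact inner_A h hw (snd_mem_TS h.sub hw)

end Pool.Agent.H59.Zar
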